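import Pool.Agent.W767.HD.Mer
import Pool.Agent.Helper873.Mean

/-!
# Transfer to the line
-/

set_option autoImplicit false

namespace Pool.Agent.W767.HD

noncomputable section

open MeasureTheory Metric Filter Topology Complex
open scoped ComplexConjugate
open Pool.Agent.Helper873.OneVar Pool.Agent.Helper873.Product Pool.Agent.Helper873.Monomial
open Pool.Agent.Helper873.Alg

/-- The coefficients as a finitely supported sequence. -/
def cf (N : ℕ) (a : ℕ → ℂ) : ℕ →₀ ℂ := ∑ n ∈ Finset.Icc 1 N, Finsupp.single (n - 1) (a n)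

lemma poly_sum {ι : Type*} (s : Finset ι) (f : ι → ℕ →₀ ℂ) (w : ℕ → ℂ) :
    poly (∑ i ∈ s, f i) w = ∑ i ∈ s, poly (f i) w := by
  classical
  induction s using Finset.induction_on with
  | empty => simp [poly_zero]
  | insert i s hi ih => rw [Finset.sum_insert hi, Finset.sum_insert hi, poly_add, ih]

lemma poly_cf (N : ℕ) (a w : ℕ → ℂ) : poly (cf N a) w = ∑ n ∈ Finset.Icc 1 N, a n * mon n w := by
  unfold cf
  rw [poly_sum]
  refine Finset.sum_congr rfl fun n hn => ?_
  rw [poly_single, Nat.sub_add_cancel (Finset.mem_Icc.mp hn).1]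

theorem line_mean (N : ℕ) (a : ℕ → ℂ) : Tendsto
    (fun T : ℝ => (1 / T) * ∫ t in (-T / 2)..(T / 2),
      ‖∑ k ∈ Finset.Icc 1 N, a k / ((k : ℂ) ^ (2 * (Real.pi : ℂ) * Complex.I * (t : ℂ)))‖)
    atTop (𝓝 (∫ z, ‖∑ n ∈ Finset.Icc 1 N, a n * mon n (fun k => zet (z k))‖ ∂tor)) := by
  have h1 := Pool.Agent.Helper873.Mean.mean_value (cf N a)
  simp only [poly_cf] at h1
  have h2 : Tendsto (fun T : ℝ => Real.pi * T) atTop atTop :=
    tendsto_id.const_mul_atTop Real.pi_pos
  refine (h1.comp h2).congr fun T => ?_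
  simp only [Function.comp]
  have h3 : ∀ t : ℝ, ‖∑ k ∈ Finset.Icc 1 N, a k / ((k : ℂ) ^ (2 * (Real.pi : ℂ) * Complex.I * (t : ℂ)))‖
      = (fun x : ℝ => ‖∑ n ∈ Finset.Icc 1 N, a n * mon n (vs (x * Complex.I))‖) (2 * Real.pi * t) := by
    intro t
    simp only
    congr 1
    refine Finset.sum_congr rfl fun k hk => ?_
    rw [mon_vs k (by have := (Finset.mem_Icc.mp hk).1; omega), div_eq_mul_inv, ← Complex.cpow_neg]
    congr 3
    push_cast
    ring
  simp only [h3]
  rw [intervalIntegral.integral_comp_mul_left (fun x : ℝ => ‖∑ n ∈ Finset.Icc 1 N,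
    a n * mon n (vs (x * Complex.I))‖) (by positivity : (2 * Real.pi) ≠ 0)]
  have e1 : 2 * Real.pi * (-T / 2) = -(Real.pi * T) := by ring
  have e2 : 2 * Real.pi * (T / 2) = Real.pi * T := by ring
  rw [e1, e2, smul_eq_mul, ← mul_assoc (1 / T)]
  congr 1
  rw [one_div, one_div, mul_inv, mul_inv, mul_inv]
  ring

end

end Pool.Agent.W767.HD
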