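import Pool.Agent.W767.HD.Ind

/-!
# Identification of the expansions
-/

set_option autoImplicit false

namespace Pool.Agent.W767.HD

noncomputable section

open MeasureTheory Metric Filter Topology Complex
open scoped ComplexConjugate
open Pool.Agent.Helper873.OneVar Pool.Agent.Helper873.Product Pool.Agent.Helper873.Monomial

/-! ### The expansion `Fn` -/

lemma Fn_sum (K : ℕ) {ι : Type*} (s : Finset ι) (c : ι → ℂ) (w : ℕ → ℂ) : ∀ (j i : ℕ)
    (f : ι → ℕ → ℂ), Fn K j i (fun m => ∑ n ∈ s, c n * f n m) w = ∑ n ∈ s, c n * Fn K j i (f n) w := by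
  intro j
  induction j with
  | zero => intro i f; rfl
  | succ j ih =>
    intro i f
    show ∑ k ∈ Finset.range K, Fn K j (i + 1) (fun m => ∑ n ∈ s, c n * f n (pr i ^ k * m)) w * w i ^ k
      = ∑ n ∈ s, c n * ∑ k ∈ Finset.range K, Fn K j (i + 1) (fun m => f n (pr i ^ k * m)) w * w i ^ k
    simp only [ih (i + 1) (fun n m => f n (pr i ^ _ * m)), Finset.sum_mul, Finset.mul_sum]
    rw [Finset.sum_comm]
    refine Finset.sum_congr rfl fun n _ => Finset.sum_congr rfl fun k _ => ?_
    ring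

lemma Fn_zero (K : ℕ) (w : ℕ → ℂ) : ∀ (j i : ℕ) (a : ℕ → ℂ),
    (∀ m, (∀ l < i, ¬ pr l ∣ m) → a m = 0) → Fn K j i a w = 0 := by
  intro j
  induction j with
  | zero =>
    intro i a ha
    exact ha 1 fun l _ h => (pr_prime l).one_lt.ne' (Nat.dvd_one.mp h)
  | succ j ih =>
    intro i a ha
    show ∑ k ∈ Finset.range K, Fn K j (i + 1) (fun m => a (pr i ^ k * m)) w * w i ^ k = 0
    refine Finset.sum_eq_zero fun k _ => ?_
    rw [ih (i + 1) (fun m => a (pr i ^ k * m)), zero_mul]
    intro m hm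
    refine ha _ fun l hl h => ?_
    rcases (pr_prime l).dvd_mul.mp h with h1 | h1
    · have h2 := (pr_prime l).dvd_of_dvd_pow h1
      have h3 := (Nat.prime_dvd_prime_iff_eq (pr_prime l) (pr_prime i)).mp h2
      have := Nat.nth_injective Nat.infinite_setOfPred_prime h3
      omega
    · exact hm l (by omega) h1

/-- Indicator of `n`. -/
def del (R : Type) [Zero R] [One R] (n : ℕ) : ℕ → R := fun m => if m = n then 1 else 0

lemma ex_pow_mul {i l v n : ℕ} (hn : n ≠ 0) :
    ex (pr i ^ v * n) l = (if l = i then v else 0) + ex n l := by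
  unfold ex
  have h1 : pr i ^ v ≠ 0 := pow_ne_zero _ (pr_prime i).ne_zero
  rw [Nat.factorization_mul h1 hn, (pr_prime i).factorization_pow]
  simp only [Finsupp.add_apply, Finsupp.single_apply]
  congr 1
  by_cases h : l = i
  · subst h; simp
  · rw [if_neg h, if_neg]
    intro h2
    exact h (Nat.nth_injective Nat.infinite_setOfPred_prime h2).symm

lemma ex_eq_zero_of_not_dvd {n l : ℕ} (h : ¬ pr l ∣ n) : ex n l = 0 :=
  Nat.factorization_eq_zero_of_not_dvd h

/-- Splitting off the part at `p_i`. -/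
lemma split_at (n i : ℕ) (hn : n ≠ 0) : ∃ n', n' ≠ 0 ∧ n = pr i ^ ex n i * n' ∧ ex n' i = 0
    ∧ ∀ l, l ≠ i → ex n' l = ex n l := by
  refine ⟨n / pr i ^ ex n i, ?_, ?_, ?_, ?_⟩
  · exact (Nat.div_pos (Nat.ordProj_le _ hn) (pow_pos (pr_prime i).pos _)).ne'
  · exact (Nat.mul_div_cancel' (Nat.ordProj_dvd n (pr i))).symm
  · exact Nat.factorization_eq_zero_of_not_dvd (Nat.not_dvd_ordCompl (pr_prime i) hn)
  · intro l hl
    have h0 : n / pr i ^ ex n i ≠ 0 :=
      (Nat.div_pos (Nat.ordProj_le _ hn) (pow_pos (pr_prime i).pos _)).ne'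
    have h1 : n = pr i ^ ex n i * (n / pr i ^ ex n i) :=
      (Nat.mul_div_cancel' (Nat.ordProj_dvd n (pr i))).symm
    have h2 := ex_pow_mul (i := i) (l := l) (v := ex n i) h0
    rw [← h1, if_neg hl, zero_add] at h2
    exact h2.symm

lemma del_shift (R : Type) [Zero R] [One R] {n n' i v : ℕ} (h : n = pr i ^ v * n') :
    (fun m => del R n (pr i ^ v * m)) = del R n' := by
  funext m
  unfold del
  congr 1
  rw [h]
  exact propext (Nat.mul_right_inj (pow_ne_zero _ (pr_prime i).ne_zero))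

lemma Fn_del (K : ℕ) (w : ℕ → ℂ) : ∀ (j i n : ℕ), n ≠ 0 → (∀ l, ex n l < K) →
    (∀ l, l < i ∨ i + j ≤ l → ex n l = 0) →
    Fn K j i (del ℂ n) w = ∏ l ∈ Finset.Ico i (i + j), w l ^ ex n l := by
  intro j
  induction j with
  | zero =>
    intro i n hn _ h
    have h1 : n = 1 := ex_injective n 1 hn one_ne_zero fun l => by
      rw [h l (by omega)]
      simp [ex]
    subst h1
    simp [Fn, del]
  | succ j ih =>
    intro i n hn hK h
    obtain ⟨n', hn', e, h0, hl⟩ := split_at n i hn
    have h1 : ∑ k ∈ Finset.range K, Fn K j (i + 1) (fun m => del ℂ n (pr i ^ k * m)) w * w i ^ k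
        = Fn K j (i + 1) (fun m => del ℂ n (pr i ^ ex n i * m)) w * w i ^ ex n i := by
      refine Finset.sum_eq_single_of_mem _ (Finset.mem_range.mpr (hK i)) fun k _ hk => ?_
      rw [Fn_zero K w j (i + 1), zero_mul]
      intro m hm
      unfold del
      rw [if_neg]
      intro h2
      apply hk
      have hm0 : m ≠ 0 := by
        rintro rfl
        exact hm i (by omega) (dvd_zero _)
      rw [← h2, ex_pow_mul hm0, if_pos rfl, ex_eq_zero_of_not_dvd (hm i (by omega)), add_zero]
    show ∑ k ∈ Finset.range K, Fn K j (i + 1) (fun m => del ℂ n (pr i ^ k * m)) w * w i ^ k = _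
    rw [h1, del_shift ℂ e, ih (i + 1) n' hn' (fun l => by
      by_cases hli : l = i
      · rw [hli, h0]
        exact (Nat.zero_le _).trans_lt (hK i)
      · rw [hl l hli]; exact hK l) (fun l hl2 => by
      by_cases hli : l = i
      · rw [hli, h0]
      · rw [hl l hli]
        exact h l (by omega))]
    have h3 : Finset.Ico i (i + (j + 1)) = insert i (Finset.Ico (i + 1) (i + 1 + j)) := by
      ext l
      simp only [Finset.mem_Ico, Finset.mem_insert]
      omega
    rw [h3, Finset.prod_insert (by simp), mul_comm]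
    congr 1
    refine Finset.prod_congr rfl fun l hl3 => ?_
    rw [hl l (by have := (Finset.mem_Ico.mp hl3).1; omega)]

/-- The expansion is the polynomial attached to the coefficients. -/
lemma Fn_eq (N : ℕ) (a w : ℕ → ℂ) :
    Fn (N + 3) N 0 (fun m => if m ∈ Finset.Icc 1 N then a m else 0) w
      = ∑ n ∈ Finset.Icc 1 N, a n * mon n w := by
  have h1 : (fun m => if m ∈ Finset.Icc 1 N then a m else 0)
      = fun m => ∑ n ∈ Finset.Icc 1 N, a n * del ℂ n m := by
    funext m
    unfold del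
    simp
  rw [h1, Fn_sum]
  refine Finset.sum_congr rfl fun n hn => ?_
  obtain ⟨hn1, hn2⟩ := Finset.mem_Icc.mp hn
  rw [Fn_del (N + 3) w N 0 n (by omega) (fun l => ?_) (fun l hl => ?_), zero_add,
    mon_eq n N hn2, Finset.range_eq_Ico]
  · have : ex n l < n := Nat.factorization_lt _ (by omega)
    omega
  · exact ex_eq_zero n l (by omega)

/-! ### The functional `SS` -/

lemma SS_sum (K : ℕ) {ι : Type*} (s : Finset ι) (c : ι → ℝ) : ∀ (j i : ℕ)
    (f : ι → ℕ → ℝ), SS K j i (fun m => ∑ n ∈ s, c n * f n m) = ∑ n ∈ s, c n * SS K j i (f n) := by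
  intro j
  induction j with
  | zero => intro i f; rfl
  | succ j ih =>
    intro i f
    show ∑ k ∈ Finset.range K, sp i ^ k * (sp i ^ 2 * (∑ n ∈ s, c n * f n (pr i ^ k))
      + (1 - sp i ^ 2) * SS K j (i + 1) (fun m => ∑ n ∈ s, c n * f n (pr i ^ k * m)))
      = ∑ n ∈ s, c n * ∑ k ∈ Finset.range K, sp i ^ k * (sp i ^ 2 * f n (pr i ^ k)
      + (1 - sp i ^ 2) * SS K j (i + 1) (fun m => f n (pr i ^ k * m)))
    simp only [ih (i + 1) (fun n m => f n (pr i ^ _ * m)), Finset.mul_sum, ← Finset.sum_add_distrib]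
    rw [Finset.sum_comm]
    refine Finset.sum_congr rfl fun n _ => Finset.sum_congr rfl fun k _ => ?_
    ring

lemma one_sub_pos (i : ℕ) : 0 < 1 - sp i ^ 2 := by
  have h1 := sp_pos i
  have h2 := sp_lt_one i
  nlinarith

lemma SS_nonneg (K : ℕ) : ∀ (j i : ℕ) (b : ℕ → ℝ), (∀ m, 0 ≤ b m) → 0 ≤ SS K j i b := by
  intro j
  induction j with
  | zero => intro i b hb; exact hb 1
  | succ j ih =>
    intro i b hb
    refine Finset.sum_nonneg fun k _ => ?_
    have h1 := (sp_pos i).le
    have h2 := (one_sub_pos i).le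
    have h3 := ih (i + 1) (fun m => b (pr i ^ k * m)) fun m => hb _
    have h4 := hb (pr i ^ k)
    positivity

lemma del_nonneg (n m : ℕ) : 0 ≤ del ℝ n m := by
  unfold del
  split_ifs <;> norm_num

lemma SS_term (K j i : ℕ) (b : ℕ → ℝ) (hb : ∀ m, 0 ≤ b m) {v : ℕ} (hv : v < K) :
    sp i ^ v * (sp i ^ 2 * b (pr i ^ v)
      + (1 - sp i ^ 2) * SS K j (i + 1) (fun m => b (pr i ^ v * m))) ≤ SS K (j + 1) i b := by
  refine Finset.single_le_sum (f := fun k => sp i ^ k * (sp i ^ 2 * b (pr i ^ k)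
      + (1 - sp i ^ 2) * SS K j (i + 1) (fun m => b (pr i ^ k * m)))) (fun k _ => ?_)
      (Finset.mem_range.mpr hv)
  have h1 := (sp_pos i).le
  have h2 := (one_sub_pos i).le
  have h3 := SS_nonneg K j (i + 1) (fun m => b (pr i ^ k * m)) fun m => hb _
  have h4 := hb (pr i ^ k)
  positivity

lemma SS_one (K : ℕ) (hK : 0 < K) : ∀ j i : ℕ, 1 ≤ SS K j i (del ℝ 1) := by
  intro j
  induction j with
  | zero => intro i; simp [SS, del]
  | succ j ih =>
    intro i
    refine le_trans ?_ (SS_term K j i (del ℝ 1) (del_nonneg 1) hK)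
    rw [del_shift ℝ (n := 1) (n' := 1) (i := i) (v := 0) (by simp)]
    have h1 := ih (i + 1)
    have h2 := one_sub_pos i
    have h3 : del ℝ 1 (pr i ^ 0) = 1 := by simp [del]
    rw [h3]
    nlinarith

lemma sqrt_inv_mul (i v n' : ℕ) :
    (Real.sqrt ((pr i ^ v * n' : ℕ) : ℝ))⁻¹ = sp i ^ v * (Real.sqrt (n' : ℝ))⁻¹ := by
  push_cast
  have h1 : Real.sqrt ((pr i : ℝ) ^ v) = Real.sqrt (pr i : ℝ) ^ v := by
    have h2 : (pr i : ℝ) ^ v = (Real.sqrt (pr i : ℝ) ^ v) ^ 2 := by
      rw [← pow_mul, mul_comm, pow_mul, Real.sq_sqrt (Nat.cast_nonneg _)]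
    rw [h2, Real.sqrt_sq (by positivity)]
  rw [Real.sqrt_mul (by positivity), mul_inv, h1]
  unfold sp
  rw [inv_pow]

lemma prod_le_one' (i L : ℕ) : ∏ l ∈ Finset.Ico i L, (1 - sp l ^ 2) ≤ 1 :=
  Finset.prod_le_one (fun l _ => (one_sub_pos l).le) fun l _ => by
    have := sq_nonneg (sp l)
    linarith

lemma prod_pos' (i L : ℕ) : 0 < ∏ l ∈ Finset.Ico i L, (1 - sp l ^ 2) :=
  Finset.prod_pos fun l _ => one_sub_pos l

lemma SS_del (K : ℕ) : ∀ (j i n L : ℕ), n ≠ 0 → (∀ l, ex n l < K) →
    (∀ l, l < i ∨ i + j ≤ l → ex n l = 0) → (∀ l, L < l → ex n l = 0) →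
    (Real.sqrt (n : ℝ))⁻¹ * ∏ l ∈ Finset.Ico i L, (1 - sp l ^ 2) ≤ SS K j i (del ℝ n) := by
  intro j
  induction j with
  | zero =>
    intro i n L hn _ h _
    have h1 : n = 1 := ex_injective n 1 hn one_ne_zero fun l => by
      rw [h l (by omega)]
      simp [ex]
    subst h1
    have := prod_le_one' i L
    simpa [SS, del] using this
  | succ j ih =>
    intro i n L hn hK h hL
    obtain ⟨n', hn', e, h0, hl⟩ := split_at n i hn
    refine le_trans ?_ (SS_term K j i (del ℝ n) (del_nonneg n) (hK i))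
    have hs := sp_pos i
    have hs2 := one_sub_pos i
    have hK0 : 0 < K := (Nat.zero_le _).trans_lt (hK i)
    rw [del_shift ℝ e]
    have hnn : (Real.sqrt (n : ℝ))⁻¹ = sp i ^ ex n i * (Real.sqrt (n' : ℝ))⁻¹ := by
      conv_lhs => rw [e]
      exact sqrt_inv_mul i _ n'
    rw [hnn, mul_assoc]
    refine mul_le_mul_of_nonneg_left ?_ (pow_nonneg hs.le _)
    by_cases h1 : n' = 1
    · subst h1
      have h2 : del ℝ n (pr i ^ ex n i) = 1 := by
        unfold del
        rw [if_pos]
        rw [mul_one] at e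
        exact e.symm
      have h3 := SS_one K hK0 j (i + 1)
      have h4 := prod_le_one' i L
      rw [h2, Nat.cast_one, Real.sqrt_one, inv_one, one_mul, mul_one]
      nlinarith
    · have h2 : ∃ l, ex n' l ≠ 0 := by
        by_contra hcon
        push Not at hcon
        exact h1 (ex_injective n' 1 hn' one_ne_zero fun l => by
          rw [hcon l]
          simp [ex])
      obtain ⟨l, hl1⟩ := h2
      have hli : l ≠ i := by
        rintro rfl
        exact hl1 h0
      have hl2 : ex n l ≠ 0 := by rwa [hl l hli] at hl1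
      have hil : i < L := by
        by_contra hcon
        have h5 : ¬ (l < i ∨ i + (j + 1) ≤ l) := fun h6 => hl2 (h l h6)
        exact hl2 (hL l (by omega))
      have h3 := ih (i + 1) n' L hn' (fun l => by
        by_cases hli : l = i
        · rw [hli, h0]
          exact hK0
        · rw [hl l hli]; exact hK l) (fun l hl2 => by
        by_cases hli : l = i
        · rw [hli, h0]
        · rw [hl l hli]
          exact h l (by omega)) (fun l hl2 => by
          rw [hl l (by omega)]
          exact hL l hl2)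
      have h4 : Finset.Ico i L = insert i (Finset.Ico (i + 1) L) := by
        ext l
        simp only [Finset.mem_Ico, Finset.mem_insert]
        omega
      rw [h4, Finset.prod_insert (by simp)]
      have h5 : 0 ≤ sp i ^ 2 * del ℝ n (pr i ^ ex n i) := mul_nonneg (sq_nonneg _) (del_nonneg _ _)
      have h6 := mul_le_mul_of_nonneg_left h3 hs2.le
      linarith

end

end Pool.Agent.W767.HD
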