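import Pool.Agent.W767.HD.St4

/-!
# Induction over the primes, on the infinite torus
-/

set_option autoImplicit false

namespace Pool.Agent.W767.HD

noncomputable section

open MeasureTheory Metric Filter Topology Complex
open scoped ComplexConjugate
open Pool.Agent.Helper873.OneVar Pool.Agent.Helper873.Product

/-- The infinite torus. -/
abbrev Z : Type := ℕ → UnitAddCircle

/-- The `i`-th prime. -/
abbrev pr (i : ℕ) : ℕ := Nat.nth Nat.Prime i

lemma pr_prime (i : ℕ) : (pr i).Prime := Nat.prime_nth_prime i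

/-- `p_i ^ (-1/2)`. -/
def sp (i : ℕ) : ℝ := (Real.sqrt (pr i))⁻¹

lemma sp_pos (i : ℕ) : 0 < sp i := by
  have : (0 : ℝ) < pr i := by exact_mod_cast (pr_prime i).pos
  unfold sp
  positivity

lemma sp_sq (i : ℕ) : sp i ^ 2 = 1 / (pr i : ℝ) := by
  unfold sp
  rw [inv_pow, Real.sq_sqrt (Nat.cast_nonneg _), one_div]

lemma sp_lt_one (i : ℕ) : sp i < 1 := by
  have h1 : (2 : ℝ) ≤ pr i := by exact_mod_cast (pr_prime i).two_le
  have h2 : sp i ^ 2 < 1 := by
    rw [sp_sq, div_lt_one (by linarith)]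
    linarith
  have := sp_pos i
  nlinarith

/-- Truncated Euler type expansion. -/
def Fn (K : ℕ) : ℕ → ℕ → (ℕ → ℂ) → (ℕ → ℂ) → ℂ
  | 0, _, a, _ => a 1
  | j + 1, i, a, w => ∑ k ∈ Finset.range K, Fn K j (i + 1) (fun m => a (pr i ^ k * m)) w * w i ^ k

/-- The weighted `ℓ¹` functional. -/
def SS (K : ℕ) : ℕ → ℕ → (ℕ → ℝ) → ℝ
  | 0, _, b => b 1
  | j + 1, i, b => ∑ k ∈ Finset.range K, sp i ^ k * (sp i ^ 2 * b (pr i ^ k)
      + (1 - sp i ^ 2) * SS K j (i + 1) (fun m => b (pr i ^ k * m)))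

lemma Fn_cont (K : ℕ) : ∀ (j i : ℕ) (a : ℕ → ℂ), Continuous (Fn K j i a) := by
  intro j
  induction j with
  | zero => intro i a; exact continuous_const
  | succ j ih =>
    intro i a
    refine continuous_finsetSum _ fun k _ => ?_
    exact (ih _ _).mul ((continuous_apply i).pow k)

lemma Fn_update (K : ℕ) : ∀ (j i : ℕ) (a w : ℕ → ℂ) (n : ℕ) (u : ℂ), n < i →
    Fn K j i a (Function.update w n u) = Fn K j i a w := by
  intro j
  induction j with
  | zero => intro i a w n u _; rfl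
  | succ j ih =>
    intro i a w n u hn
    refine Finset.sum_congr rfl fun k _ => ?_
    rw [ih (i + 1) _ w n u (by omega), Function.update_of_ne (by omega)]

/-- Evaluation on the torus. -/
def Ft (K j i : ℕ) (a : ℕ → ℂ) (z : Z) : ℂ := Fn K j i a fun n => zet (z n)

lemma Ft_cont (K j i : ℕ) (a : ℕ → ℂ) : Continuous (Ft K j i a) :=
  (Fn_cont K j i a).comp (continuous_pi fun n => continuous_zet.comp (continuous_apply n))

lemma Ft_succ (K j i : ℕ) (a : ℕ → ℂ) (z : Z) (t : UnitAddCircle) :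
    Ft K (j + 1) i a (Function.update z i t)
      = pv K (fun k => Ft K j (i + 1) (fun m => a (pr i ^ k * m)) z) (zet t) := by
  have h1 : (fun n => zet (Function.update z i t n))
      = Function.update (fun n => zet (z n)) i (zet t) := by
    funext n
    by_cases hn : n = i
    · subst hn
      simp
    · rw [Function.update_of_ne hn, Function.update_of_ne hn]
  unfold Ft pv
  rw [h1]
  show ∑ k ∈ Finset.range K, Fn K j (i + 1) (fun m => a (pr i ^ k * m))
    (Function.update (fun n => zet (z n)) i (zet t))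
      * (Function.update (fun n => zet (z n)) i (zet t)) i ^ k = _
  refine Finset.sum_congr rfl fun k _ => ?_
  rw [Fn_update K j (i + 1) _ _ i _ (by omega), Function.update_self]

instance : IsProbabilityMeasure (tor) := inferInstance

lemma int_res (i : ℕ) {f : Z → ℝ} (hf : Continuous f) :
    ∫ z, f z ∂tor = ∫ z, ∫ t, f (Function.update z i t) ∂nu ∂tor := by
  have h1 : ∫ z, f z ∂tor = ∫ p, f (Function.update p.1 i p.2) ∂(tor.prod nu) := by
    have h2 := integral_map (μ := tor.prod nu)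
      (φ := fun p : Z × UnitAddCircle => Function.update p.1 i p.2)
      (resample i).measurable.aemeasurable (f := f)
      (by rw [(resample i).map_eq]; exact hf.aestronglyMeasurable)
    rw [(resample i).map_eq] at h2
    exact h2
  rw [h1, integral_prod]
  have hc : Continuous fun p : Z × UnitAddCircle => f (Function.update p.1 i p.2) :=
    hf.comp (continuous_fst.update i continuous_snd)
  exact hc.integrable_of_hasCompactSupport (HasCompactSupport.of_compactSpace _)

/-- Subharmonicity in one variable. -/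
lemma subh_one {K : ℕ} (hK : 0 < K) (h : ℕ → ℂ) {l : ℝ} (hl : 0 ≤ l) :
    Real.sqrt (l + ‖h 0‖) ≤ ∫ t, Real.sqrt (l + ‖pv K h (zet t)‖) ∂nu := by
  obtain ⟨ω, hω, hω0⟩ := exists_phase (h 0)
  let g : Polynomial ℂ := Polynomial.C (l : ℂ)
    + Polynomial.C ω * ∑ k ∈ Finset.range K, Polynomial.C (h k) * Polynomial.X ^ k
  have hg : ∀ z, g.eval z = l + ω * pv K h z := by
    intro z
    simp only [g, Polynomial.eval_add, Polynomial.eval_mul, Polynomial.eval_C,
      Polynomial.eval_finsetSum, Polynomial.eval_pow, Polynomial.eval_X, pv]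
  have h1 := sqrt_ineq g 0 le_rfl zero_lt_one
  have h2 : g.eval ((0 : ℝ) : ℂ) = ((l + ‖h 0‖ : ℝ) : ℂ) := by
    rw [Complex.ofReal_zero, hg, pv_zero hK, hω0]
    push_cast
    ring
  rw [h2, Complex.norm_real, Real.norm_of_nonneg (by positivity)] at h1
  refine h1.trans ?_
  refine integral_mono ?_ (int_of_cont (Real.continuous_sqrt.comp
    (continuous_const.add (pv_cont K h).norm))) fun t => ?_
  · simp only [hg, Complex.ofReal_zero, zero_mul, sub_zero, norm_one, div_one]
    exact int_of_cont (Real.continuous_sqrt.comp (continuous_const.add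
      (continuous_const.mul (pv_cont K h))).norm)
  · simp only [Complex.ofReal_zero, zero_mul, sub_zero, norm_one, div_one]
    refine Real.sqrt_le_sqrt ?_
    rw [hg]
    refine (norm_add_le _ _).trans ?_
    rw [norm_mul, hω, one_mul, Complex.norm_real, Real.norm_of_nonneg hl]

lemma subh {K : ℕ} (hK : 0 < K) {l : ℝ} (hl : 0 ≤ l) : ∀ (j i : ℕ) (a : ℕ → ℂ),
    Real.sqrt (l + ‖a 1‖) ≤ ∫ z, Real.sqrt (l + ‖Ft K j i a z‖) ∂tor := by
  intro j
  induction j with
  | zero =>
    intro i a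
    simp [Ft, Fn]
  | succ j ih =>
    intro i a
    have h1 := ih (i + 1) (fun m => a (pr i ^ 0 * m))
    simp only [pow_zero, one_mul] at h1
    refine h1.trans ?_
    rw [int_res (f := fun z => Real.sqrt (l + ‖Ft K (j + 1) i a z‖)) i
      (Real.continuous_sqrt.comp (continuous_const.add (Ft_cont K (j + 1) i a).norm))]
    simp only [Ft_succ]
    refine integral_mono ?_ ?_ fun z => ?_
    · exact cint tor (Real.continuous_sqrt.comp (continuous_const.add (Ft_cont K j _ _).norm))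
    · exact cint tor (par_cont (F := fun z t => Real.sqrt (l + ‖pv K (fun k => Ft K j (i + 1)
        (fun m => a (pr i ^ k * m)) z) (zet t)‖)) (Real.continuous_sqrt.comp
        (continuous_const.add (pv_cont2 fun k => Ft_cont K j _ _).norm)))
    · have := subh_one hK (fun k => Ft K j (i + 1) (fun m => a (pr i ^ k * m)) z) hl
      simpa using this

lemma mean_le_Nn {K : ℕ} (hK : 0 < K) (j i : ℕ) (a : ℕ → ℂ) :
    ‖a 1‖ ≤ Nn tor fun z => ‖Ft K j i a z‖ := by
  refine le_Nn (Ft_cont K j i a).norm (fun _ => norm_nonneg _) ⟨norm_nonneg _, ?_⟩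
  have := subh hK (norm_nonneg (a 1)) j i a
  rwa [← two_mul] at this

lemma int_norm_succ (K j i : ℕ) (a : ℕ → ℂ) :
    ∫ z, ‖Ft K (j + 1) i a z‖ ∂tor
      = ∫ z, en K (fun k => Ft K j (i + 1) (fun m => a (pr i ^ k * m)) z) ∂tor := by
  rw [int_res (f := fun z => ‖Ft K (j + 1) i a z‖) i (Ft_cont K (j + 1) i a).norm]
  simp only [Ft_succ]
  rfl

/-- Main induction for large primes. -/
theorem ind_large {K : ℕ} (hK : 2 < K) : ∀ (j i : ℕ) (a : ℕ → ℂ), (∀ n, i ≤ n → sp n ≤ 1 / 400) →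
    SS K j i (fun m => ‖a m‖) + 200 * Nn tor (fun z => ‖Ft K j i a z‖)
      ≤ 20000000 * (∏ n ∈ Finset.range j, (1 + 6 * sp (i + n) ^ 3)) * ∫ z, ‖Ft K j i a z‖ ∂tor := by
  intro j
  induction j with
  | zero =>
    intro i a _
    have h1 : Nn tor (fun z => ‖Ft K 0 i a z‖) ≤ ∫ z, ‖Ft K 0 i a z‖ ∂tor :=
      Nn_le (Ft_cont K 0 i a).norm fun _ => norm_nonneg _
    have h2 : ∫ z, ‖Ft K 0 i a z‖ ∂tor = ‖a 1‖ := by simp [Ft, Fn]
    rw [h2] at h1 ⊢
    have h3 : SS K 0 i (fun m => ‖a m‖) = ‖a 1‖ := rfl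
    rw [h3, Finset.prod_range_zero]
    have := norm_nonneg (a 1)
    linarith
  | succ j ih =>
    intro i a hi
    have hprod1 : ∀ (r : ℕ → ℝ) (j : ℕ), (∀ n, 0 ≤ r n) → 1 ≤ ∏ n ∈ Finset.range j, (1 + 6 * r n) := by
      intro r j hr
      have := Finset.prod_le_prod (s := Finset.range j) (f := fun _ => (1 : ℝ))
        (g := fun n => 1 + 6 * r n) (fun _ _ => zero_le_one) (fun n _ => by
          have := hr n
          linarith)
      simpa using this
    set C := 20000000 * (∏ n ∈ Finset.range j, (1 + 6 * sp (i + 1 + n) ^ 3)) with hC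
    have hCge : 20000000 ≤ C := by
      have := hprod1 (fun n => sp (i + 1 + n) ^ 3) j fun n => by
        have := sp_pos (i + 1 + n)
        positivity
      linarith
    set l := Nn tor (fun z => ‖Ft K (j + 1) i a z‖) with hl
    have hl0 : 0 ≤ l := Nn_nonneg (Ft_cont K (j + 1) i a).norm fun _ => norm_nonneg _
    have hst := step (P := tor) (sp_pos i) (hi i le_rfl) hK
      (h := fun z k => Ft K j (i + 1) (fun m => a (pr i ^ k * m)) z)
      (fun k => Ft_cont K j _ _) hCge
      (m := fun k => ‖a (pr i ^ k)‖) (T := fun k => SS K j (i + 1) (fun m => ‖a (pr i ^ k * m)‖))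
      (fun k _ => by
        have := mean_le_Nn (K := K) (by omega) j (i + 1) (fun m => a (pr i ^ k * m))
        simpa using this)
      (fun k _ => ih (i + 1) (fun m => a (pr i ^ k * m)) fun n hn => hi n (by omega))
      hl0 (by
        have h1 := Nn_mem (P := tor) (Ft_cont K (j + 1) i a).norm fun _ => norm_nonneg _
        rw [← hl] at h1
        rw [int_res (f := fun z => Real.sqrt (l + ‖Ft K (j + 1) i a z‖)) i
          (Real.continuous_sqrt.comp (continuous_const.add (Ft_cont K (j + 1) i a).norm))] at h1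
        simp only [Ft_succ] at h1
        exact h1)
    rw [← int_norm_succ] at hst
    have e1 : C * (1 + 6 * sp i ^ 3)
        = 20000000 * (∏ n ∈ Finset.range (j + 1), (1 + 6 * sp (i + n) ^ 3)) := by
      rw [Finset.prod_range_succ', hC]
      have : ∀ n, sp (i + (n + 1)) = sp (i + 1 + n) := fun n => by
        congr 1
        omega
      simp only [this, add_zero]
      ring
    rw [e1] at hst
    exact hst

lemma sp_cube_le (i n : ℕ) : sp (i + n) ^ 3 ≤ ((n + 1 : ℕ) : ℝ) ^ (-(3 / 2 : ℝ)) := by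
  have h1 : n + 1 ≤ pr (i + n) := by
    have := Nat.add_two_le_nth_prime (i + n)
    show n + 1 ≤ Nat.nth Nat.Prime (i + n)
    omega
  have h2 : ((n + 1 : ℕ) : ℝ) ≤ pr (i + n) := by exact_mod_cast h1
  have h0 : (0 : ℝ) < ((n + 1 : ℕ) : ℝ) := by positivity
  have h3 : ((n + 1 : ℕ) : ℝ) ^ (-(3 / 2 : ℝ)) = (Real.sqrt ((n + 1 : ℕ) : ℝ))⁻¹ ^ 3 := by
    rw [Real.sqrt_eq_rpow, ← Real.rpow_neg h0.le, ← Real.rpow_natCast, ← Real.rpow_mul h0.le]
    norm_num
  rw [h3]
  refine pow_le_pow_left₀ (sp_pos _).le ?_ 3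
  unfold sp
  exact inv_anti₀ (Real.sqrt_pos.mpr h0) (Real.sqrt_le_sqrt h2)

lemma prod_bdd : ∃ M : ℝ, 1 ≤ M ∧ ∀ i j : ℕ,
    ∏ n ∈ Finset.range j, (1 + 6 * sp (i + n) ^ 3) ≤ M := by
  have hsum : Summable fun n : ℕ => ((n + 1 : ℕ) : ℝ) ^ (-(3 / 2 : ℝ)) := by
    have h1 : Summable fun n : ℕ => (n : ℝ) ^ (-(3 / 2 : ℝ)) :=
      Real.summable_nat_rpow.mpr (by norm_num)
    exact (summable_nat_add_iff 1).mpr h1
  refine ⟨Real.exp (6 * ∑' n : ℕ, ((n + 1 : ℕ) : ℝ) ^ (-(3 / 2 : ℝ))), ?_, fun i j => ?_⟩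
  · rw [← Real.exp_zero]
    refine Real.exp_le_exp.mpr ?_
    have : 0 ≤ ∑' n : ℕ, ((n + 1 : ℕ) : ℝ) ^ (-(3 / 2 : ℝ)) := tsum_nonneg fun n => by positivity
    linarith
  · calc ∏ n ∈ Finset.range j, (1 + 6 * sp (i + n) ^ 3)
        ≤ ∏ n ∈ Finset.range j, Real.exp (6 * ((n + 1 : ℕ) : ℝ) ^ (-(3 / 2 : ℝ))) := by
          refine Finset.prod_le_prod (fun n _ => ?_) fun n _ => ?_
          · have := sp_pos (i + n)
            positivity
          · have h1 := sp_cube_le i n
            have h2 := Real.add_one_le_exp (6 * ((n + 1 : ℕ) : ℝ) ^ (-(3 / 2 : ℝ)))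
            linarith
      _ = Real.exp (∑ n ∈ Finset.range j, 6 * ((n + 1 : ℕ) : ℝ) ^ (-(3 / 2 : ℝ))) :=
          (Real.exp_sum _ _).symm
      _ ≤ _ := by
          refine Real.exp_le_exp.mpr ?_
          rw [← Finset.mul_sum]
          refine mul_le_mul_of_nonneg_left ?_ (by norm_num)
          exact hsum.sum_le_tsum _ fun n _ => by positivity

lemma sp_small {n : ℕ} (hn : 160000 ≤ n) : sp n ≤ 1 / 400 := by
  have h1 : n + 2 ≤ pr n := Nat.add_two_le_nth_prime n
  have h2 : (400 : ℝ) ^ 2 ≤ pr n := by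
    have : 400 ^ 2 ≤ pr n := by omega
    exact_mod_cast this
  have h3 : (400 : ℝ) ≤ Real.sqrt (pr n) := Real.le_sqrt_of_sq_le h2
  unfold sp
  rw [one_div]
  exact inv_anti₀ (by norm_num) h3

/-- The inequality on the torus. -/
theorem ex_bound : ∀ d i : ℕ, 160000 ≤ i + d → ∃ D : ℝ, 1 ≤ D ∧ ∀ K : ℕ, 2 < K → ∀ (j : ℕ)
    (a : ℕ → ℂ), SS K j i (fun m => ‖a m‖) ≤ D * ∫ z, ‖Ft K j i a z‖ ∂tor := by
  intro d
  induction d with
  | zero =>
    intro i hi
    obtain ⟨M, hM1, hM⟩ := prod_bdd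
    refine ⟨20000000 * M, by linarith, fun K hK j a => ?_⟩
    have h1 := ind_large hK j i a fun n hn => sp_small (by omega)
    have h2 : 0 ≤ Nn tor (fun z => ‖Ft K j i a z‖) :=
      Nn_nonneg (Ft_cont K j i a).norm fun _ => norm_nonneg _
    have h3 : 0 ≤ ∫ z, ‖Ft K j i a z‖ ∂tor := integral_nonneg fun _ => norm_nonneg _
    have h4 := hM i j
    have h5 : 20000000 * (∏ n ∈ Finset.range j, (1 + 6 * sp (i + n) ^ 3))
        * ∫ z, ‖Ft K j i a z‖ ∂tor ≤ 20000000 * M * ∫ z, ‖Ft K j i a z‖ ∂tor :=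
      mul_le_mul_of_nonneg_right (by linarith) h3
    linarith
  | succ d ih =>
    intro i hi
    obtain ⟨D, hD1, hD⟩ := ih (i + 1) (by omega)
    have hs0 := sp_pos i
    have hs1 := sp_lt_one i
    have hs2 : 0 < 1 - sp i := by linarith
    have hDD : D ≤ D / (1 - sp i) := by
      rw [le_div_iff₀ hs2]
      nlinarith
    refine ⟨D / (1 - sp i), by linarith, fun K hK j a => ?_⟩
    cases j with
    | zero =>
      have h2 : ∫ z, ‖Ft K 0 i a z‖ ∂tor = ‖a 1‖ := by simp [Ft, Fn]
      have h3 : SS K 0 i (fun m => ‖a m‖) = ‖a 1‖ := rfl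
      rw [h2, h3]
      exact le_mul_of_one_le_left (norm_nonneg _) (by linarith)
    | succ j =>
      have h1 := crude (P := tor) (K := K) hs0 hs1
        (h := fun z k => Ft K j (i + 1) (fun m => a (pr i ^ k * m)) z)
        (fun k => Ft_cont K j _ _) hD1
        (m := fun k => ‖a (pr i ^ k)‖)
        (T := fun k => SS K j (i + 1) (fun m => ‖a (pr i ^ k * m)‖))
        (fun k _ => by
          have h4 := mean_le_Nn (K := K) (by omega) j (i + 1) (fun m => a (pr i ^ k * m))
          have h5 : Nn tor (fun z => ‖Ft K j (i + 1) (fun m => a (pr i ^ k * m)) z‖)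
            ≤ ∫ z, ‖Ft K j (i + 1) (fun m => a (pr i ^ k * m)) z‖ ∂tor :=
            Nn_le (Ft_cont K j _ _).norm fun _ => norm_nonneg _
          simpa using h4.trans h5)
        (fun k _ => hD K hK j (fun m => a (pr i ^ k * m)))
      rw [← int_norm_succ] at h1
      exact h1

end

end Pool.Agent.W767.HD
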