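import Pool.Agent.W767.HD.Comb
import Pool.Agent.Helper256.KM.Mertens

/-!
# The product over the primes
-/

set_option autoImplicit false

namespace Pool.Agent.W767.HD

noncomputable section

open MeasureTheory Metric Filter Topology Complex
open scoped ComplexConjugate
open Pool.Agent.Helper873.OneVar Pool.Agent.Helper873.Product Pool.Agent.Helper873.Monomial

lemma prod_primes_real (g : ℕ → ℝ) (M : ℕ) :
    ∏ j ∈ Finset.range (Nat.primeCounting' M), g (Nat.nth Nat.Prime j) =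
      ∏ p ∈ Nat.primesBelow M, g p := by
  refine Finset.prod_nbij' (fun j => Nat.nth Nat.Prime j) (fun p => Nat.count Nat.Prime p)
    ?_ ?_ ?_ ?_ ?_
  · intro j hj
    rw [Nat.mem_primesBelow]
    exact ⟨Nat.nth_lt_of_lt_count (Finset.mem_range.1 hj), Nat.prime_nth_prime j⟩
  · intro p hp
    rw [Nat.mem_primesBelow] at hp
    rw [Finset.mem_range]
    exact Nat.count_strict_mono hp.2 hp.1
  · intro j _
    exact Nat.primeCounting'_nth_eq j
  · intro p hp
    exact Nat.nth_count (Nat.prime_of_mem_primesBelow hp)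
  · intro j _
    rfl

lemma one_sub_ge {x : ℝ} (h0 : 0 ≤ x) (h1 : x ≤ 1 / 2) : Real.exp (-(x + 2 * x ^ 2)) ≤ 1 - x := by
  have h2 : 0 < 1 - x := by linarith
  rw [← Real.le_log_iff_exp_le h2]
  have h3 := Real.one_sub_inv_le_log_of_pos h2
  refine le_trans ?_ h3
  have h4 : (1 - x)⁻¹ ≤ 1 + x + 2 * x ^ 2 := by
    rw [inv_le_iff_one_le_mul₀ h2]
    nlinarith [mul_nonneg h0 (sq_nonneg x), mul_nonneg (sq_nonneg x) (by linarith : 0 ≤ 1 - 2 * x)]
  linarith

lemma prod_lower : ∃ c : ℝ, 0 < c ∧ ∀ n : ℕ, 2 ≤ n →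
    c / Real.log n ≤ ∏ p ∈ Nat.primesBelow (n + 1), (1 - 1 / (p : ℝ)) := by
  obtain ⟨C, hC⟩ := Pool.Agent.Helper256.KM.mertens_inv
  have hs : Summable (fun n : ℕ => 1 / (n : ℝ) ^ 2) := Real.summable_one_div_nat_pow.2 (by norm_num)
  set S := ∑' n : ℕ, 1 / (n : ℝ) ^ 2 with hS
  refine ⟨Real.exp (-(C + 2 * S)) / 2, by positivity, fun n hn => ?_⟩
  have hn2 : (2 : ℝ) ≤ n := by exact_mod_cast hn
  have hlog : 0 < Real.log n := Real.log_pos (by linarith)
  have h1 : ∏ p ∈ Nat.primesBelow (n + 1), Real.exp (-(1 / (p : ℝ) + 2 * (1 / (p : ℝ)) ^ 2))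
      ≤ ∏ p ∈ Nat.primesBelow (n + 1), (1 - 1 / (p : ℝ)) := by
    refine Finset.prod_le_prod (fun p _ => (Real.exp_pos _).le) fun p hp => ?_
    have hp2 : (2 : ℝ) ≤ p := by exact_mod_cast (Nat.prime_of_mem_primesBelow hp).two_le
    refine one_sub_ge (by positivity) ?_
    exact one_div_le_one_div_of_le (by norm_num) hp2
  refine le_trans ?_ h1
  rw [← Real.exp_sum]
  have h2 : ∑ p ∈ Nat.primesBelow (n + 1), (1 : ℝ) / p ≤ Real.log (Real.log (n + 1 : ℕ)) + C := by
    have h3 := (abs_le.mp (hC (n + 1) (by omega))).2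
    have h4 : ∑ p ∈ Nat.primesBelow (n + 1), (1 : ℝ) / p
        ≤ ∑ p ∈ (Finset.Icc 1 (n + 1)).filter Nat.Prime, (1 : ℝ) / p := by
      refine Finset.sum_le_sum_of_subset_of_nonneg ?_ fun p _ _ => by positivity
      intro p hp
      rw [Nat.mem_primesBelow] at hp
      rw [Finset.mem_filter, Finset.mem_Icc]
      exact ⟨⟨hp.2.one_lt.le, by omega⟩, hp.2⟩
    linarith
  have h5 : ∑ p ∈ Nat.primesBelow (n + 1), (1 / (p : ℝ)) ^ 2 ≤ S := by
    have h6 : ∀ p : ℕ, (1 / (p : ℝ)) ^ 2 = 1 / (p : ℝ) ^ 2 := fun p => by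
      rw [div_pow, one_pow]
    simp only [h6]
    exact hs.sum_le_tsum _ fun p _ => by positivity
  have h7 : Real.log (n + 1 : ℕ) ≤ 2 * Real.log n := by
    have h8 : ((n + 1 : ℕ) : ℝ) ≤ (n : ℝ) ^ 2 := by
      push_cast
      nlinarith
    have h9 := Real.log_le_log (by positivity) h8
    rwa [Real.log_pow, Nat.cast_ofNat] at h9
  have h8 : 0 < Real.log (n + 1 : ℕ) := by
    refine Real.log_pos ?_
    push_cast
    linarith
  have h9 : Real.log (Real.log (n + 1 : ℕ)) ≤ Real.log (2 * Real.log n) := Real.log_le_log h8 h7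
  have h10 : Real.exp (-(C + 2 * S)) / 2 / Real.log n
      = Real.exp (-(C + 2 * S) - Real.log (2 * Real.log n)) := by
    rw [Real.exp_sub, Real.exp_log (by positivity)]
    field_simp
  rw [h10]
  refine Real.exp_le_exp.mpr ?_
  rw [Finset.sum_neg_distrib, Finset.sum_add_distrib, ← Finset.mul_sum]
  linarith

/-- Lower bound for the weight. -/
lemma weight_lower : ∃ c : ℝ, 0 < c ∧ c ≤ 1 ∧ ∀ N n : ℕ, 1 ≤ n → n ≤ N →
    (if n = 1 then c else c / (Real.sqrt n * Real.log n)) ≤ SS (N + 3) N 0 (del ℝ n) := by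
  obtain ⟨c, hc, hcn⟩ := prod_lower
  refine ⟨min c 1, lt_min hc one_pos, min_le_right _ _, fun N n hn hN => ?_⟩
  split_ifs with h1
  · subst h1
    exact (min_le_right _ _).trans (SS_one (N + 3) (by omega) N 0)
  · have hn2 : 2 ≤ n := by omega
    have h2 := SS_del (N + 3) N 0 n (Nat.primeCounting' (n + 1)) (by omega) (fun l => by
      have : ex n l < n := Nat.factorization_lt _ (by omega)
      omega) (fun l hl => ex_eq_zero n l (by omega)) (fun l hl => by
      refine ex_eq_zero_of_not_dvd fun hd => ?_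
      have h3 : pr l ≤ n := Nat.le_of_dvd (by omega) hd
      have h4 : Nat.primeCounting' (pr l) ≤ Nat.primeCounting' (n + 1) :=
        Nat.count_monotone _ (by omega)
      have h5 : Nat.primeCounting' (pr l) = l := Nat.primeCounting'_nth_eq l
      omega)
    refine le_trans ?_ h2
    have h3 : ∏ l ∈ Finset.Ico 0 (Nat.primeCounting' (n + 1)), (1 - sp l ^ 2)
        = ∏ p ∈ Nat.primesBelow (n + 1), (1 - 1 / (p : ℝ)) := by
      rw [← Finset.range_eq_Ico, ← prod_primes_real (fun p => 1 - 1 / (p : ℝ)) (n + 1)]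
      refine Finset.prod_congr rfl fun l _ => ?_
      rw [sp_sq]
    rw [h3]
    have hlog : 0 < Real.log n := Real.log_pos (by exact_mod_cast hn2)
    have hsq : 0 < Real.sqrt n := Real.sqrt_pos.mpr (by positivity)
    have h4 : min c 1 / (Real.sqrt n * Real.log n) = (Real.sqrt n)⁻¹ * (min c 1 / Real.log n) := by
      field_simp
    rw [h4]
    refine mul_le_mul_of_nonneg_left (le_trans ?_ (hcn n hn2)) (by positivity)
    exact div_le_div_of_nonneg_right (min_le_left _ _) hlog.le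

/-- The inequality on the torus in final form. -/
theorem torus_hardy : ∃ c : ℝ, 0 < c ∧ ∀ (N : ℕ) (a : ℕ → ℂ), 1 ≤ N →
    c * (‖a 1‖ + ∑ k ∈ Finset.Icc 2 N, ‖a k‖ / (Real.sqrt k * Real.log k))
      ≤ ∫ z, ‖∑ n ∈ Finset.Icc 1 N, a n * mon n (fun k => zet (z k))‖ ∂tor := by
  obtain ⟨c, hc, hc1, hw⟩ := weight_lower
  obtain ⟨D, hD1, hD⟩ := ex_bound 160000 0 (by norm_num)
  refine ⟨c / D, by positivity, fun N a hN => ?_⟩
  have h1 := hD (N + 3) (by omega) N (fun m => if m ∈ Finset.Icc 1 N then a m else 0)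
  have h2 : ∀ z : Z, Ft (N + 3) N 0 (fun m => if m ∈ Finset.Icc 1 N then a m else 0) z
      = ∑ n ∈ Finset.Icc 1 N, a n * mon n (fun k => zet (z k)) := fun z => Fn_eq N a _
  simp only [h2] at h1
  have h3 : (fun m => ‖(if m ∈ Finset.Icc 1 N then a m else 0 : ℂ)‖)
      = fun m => ∑ n ∈ Finset.Icc 1 N, ‖a n‖ * del ℝ n m := by
    funext m
    unfold del
    by_cases hm : m ∈ Finset.Icc 1 N
    · simp [hm]
    · simp [hm]
  rw [h3, SS_sum] at h1
  have h4 : ∑ n ∈ Finset.Icc 1 N, ‖a n‖ * (if n = 1 then c else c / (Real.sqrt n * Real.log n))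
      ≤ ∑ n ∈ Finset.Icc 1 N, ‖a n‖ * SS (N + 3) N 0 (del ℝ n) := by
    refine Finset.sum_le_sum fun n hn => ?_
    obtain ⟨hn1, hn2⟩ := Finset.mem_Icc.mp hn
    exact mul_le_mul_of_nonneg_left (hw N n hn1 hn2) (norm_nonneg _)
  have h5 : ∑ n ∈ Finset.Icc 1 N, ‖a n‖ * (if n = 1 then c else c / (Real.sqrt n * Real.log n))
      = c * (‖a 1‖ + ∑ k ∈ Finset.Icc 2 N, ‖a k‖ / (Real.sqrt k * Real.log k)) := by
    have h6 : Finset.Icc 1 N = insert 1 (Finset.Icc 2 N) := by
      ext l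
      simp only [Finset.mem_Icc, Finset.mem_insert]
      omega
    rw [h6, Finset.sum_insert (by simp), if_pos rfl, mul_add, Finset.mul_sum]
    congr 1
    · ring
    · refine Finset.sum_congr rfl fun k hk => ?_
      rw [if_neg (by have := (Finset.mem_Icc.mp hk).1; omega)]
      ring
  rw [h5] at h4
  have h7 := h4.trans h1
  have hD0 : 0 < D := by linarith
  rw [div_mul_eq_mul_div, div_le_iff₀ hD0, mul_comm _ D]
  exact h7

end

end Pool.Agent.W767.HD
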