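import Pool.Agent.Helper873.Mean

/-!
# Duality inequalities for one variable polynomials on the circle
-/

set_option autoImplicit false

namespace Pool.Agent.W767.HD

noncomputable section

open MeasureTheory Metric Filter Topology Complex
open scoped ComplexConjugate
open Pool.Agent.Helper873.OneVar

/-- Normalised Haar measure on the circle. -/
abbrev nu : Measure UnitAddCircle := AddCircle.haarAddCircle (T := 1)

lemma int_of_cont {E : Type*} [NormedAddCommGroup E] {f : UnitAddCircle → E}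
    (hf : Continuous f) : Integrable f nu :=
  hf.integrable_of_hasCompactSupport (HasCompactSupport.of_compactSpace f)

lemma zet_ne (t : UnitAddCircle) : zet t ≠ 0 := by
  intro h
  have := norm_zet t
  rw [h, norm_zero] at this
  exact zero_ne_one this

lemma conj_zet (t : UnitAddCircle) : conj (zet t) = (zet t)⁻¹ :=
  (Complex.inv_eq_conj (norm_zet t)).symm

lemma mean_an {G : ℂ → ℂ} (hG : DiffContOnCl ℂ G (ball 0 1)) :
    ∫ t, G (zet t) ∂nu = G 0 := by
  have h := cauchy_zet G hG 0 le_rfl zero_lt_one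
  simp only [Complex.ofReal_zero, sub_zero] at h
  rw [← h]
  refine integral_congr_ae (Filter.Eventually.of_forall fun t => ?_)
  simp only
  rw [div_self (zet_ne t), one_mul]

/-- The polynomial with coefficients `h`. -/
def pv (K : ℕ) (h : ℕ → ℂ) (z : ℂ) : ℂ := ∑ k ∈ Finset.range K, h k * z ^ k

lemma pv_diff (K : ℕ) (h : ℕ → ℂ) : Differentiable ℂ (pv K h) := by
  unfold pv
  fun_prop

lemma pv_cont (K : ℕ) (h : ℕ → ℂ) : Continuous fun t => pv K h (zet t) :=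
  (pv_diff K h).continuous.comp continuous_zet

lemma pv_zero {K : ℕ} (hK : 0 < K) (h : ℕ → ℂ) : pv K h 0 = h 0 := by
  unfold pv
  rw [Finset.sum_eq_single 0]
  · simp
  · intro k _ hk
    rw [zero_pow hk, mul_zero]
  · intro h'
    exact absurd (Finset.mem_range.mpr hK) h'

lemma mean_zpow (n : ℤ) : ∫ t, zet t ^ n ∂nu = if n = 0 then 1 else 0 := by
  rcases lt_trichotomy n 0 with hn | hn | hn
  · rw [if_neg hn.ne]
    obtain ⟨k, hk⟩ : ∃ k : ℕ, n = -((k + 1 : ℕ) : ℤ) := ⟨(-n).toNat - 1, by omega⟩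
    have h1 : ∫ t, zet t ^ (k + 1) ∂nu = 0 := by
      have := mean_an (G := fun z => z ^ (k + 1))
        ((differentiable_id.pow (k + 1)).diffContOnCl)
      simpa using this
    have h2 : ∫ t, zet t ^ n ∂nu = ∫ t, conj (zet t ^ (k + 1)) ∂nu := by
      refine integral_congr_ae (Filter.Eventually.of_forall fun t => ?_)
      simp only
      rw [map_pow, conj_zet, hk, zpow_neg, zpow_natCast, inv_pow]
    rw [h2, integral_conj, h1, map_zero]
  · rw [if_pos hn, hn]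
    simp
  · rw [if_neg hn.ne']
    lift n to ℕ using hn.le
    have := mean_an (G := fun z => z ^ n) ((differentiable_id.pow n).diffContOnCl)
    simp only [zpow_natCast]
    rw [this, zero_pow (by omega)]

lemma coef {K : ℕ} (h : ℕ → ℂ) {k : ℕ} (hk : k < K) :
    ∫ t, (zet t)⁻¹ ^ k * pv K h (zet t) ∂nu = h k := by
  have h1 : ∀ t : UnitAddCircle, (zet t)⁻¹ ^ k * pv K h (zet t)
      = ∑ j ∈ Finset.range K, h j * zet t ^ ((j : ℤ) - k) := by
    intro t
    unfold pv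
    rw [Finset.mul_sum]
    refine Finset.sum_congr rfl fun j _ => ?_
    rw [zpow_sub₀ (zet_ne t), zpow_natCast, zpow_natCast, inv_pow]
    ring
  simp only [h1]
  rw [integral_finsetSum]
  · simp only [integral_const_mul, mean_zpow]
    rw [Finset.sum_eq_single k]
    · simp
    · intro j _ hj
      rw [if_neg (by omega), mul_zero]
    · intro h'
      exact absurd (Finset.mem_range.mpr hk) h'
  · intro j _
    refine int_of_cont (continuous_const.mul ?_)
    exact continuous_zet.zpow₀ _ fun t => Or.inl (zet_ne t)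

section psi

variable {t : ℝ} (ht0 : 0 ≤ t) (ht : t ≤ 1 / 2) {τ : ℂ} (hτ : ‖τ‖ = 1)

include ht0 ht hτ

lemma den_ne {k : ℕ} {z : ℂ} (hz : ‖z‖ ≤ 1) : 1 + t * (τ * z) ^ k ≠ 0 := by
  intro h
  have h1 : ‖(t : ℂ) * (τ * z) ^ k‖ ≤ 1 / 2 := by
    rw [norm_mul, norm_pow, norm_mul, hτ, one_mul, Complex.norm_real, Real.norm_of_nonneg ht0]
    calc t * ‖z‖ ^ k ≤ t * 1 :=
          mul_le_mul_of_nonneg_left (pow_le_one₀ (norm_nonneg _) hz) ht0
      _ ≤ 1 / 2 := by linarith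
  have h2 : (t : ℂ) * (τ * z) ^ k = -1 := by linear_combination h
  rw [h2, norm_neg, norm_one] at h1
  norm_num at h1

lemma mean_div {k : ℕ} (hk : 0 < k) {G : ℂ → ℂ} (hG : Differentiable ℂ G) :
    ∫ x, G (zet x) / (1 + t * (τ * zet x) ^ k) ∂nu = G 0 := by
  have h := mean_an (G := fun z => G z / (1 + t * (τ * z) ^ k)) ?_
  · rw [h]
    simp [hk.ne']
  · refine DifferentiableOn.diffContOnCl ?_
    rw [closure_ball _ one_ne_zero]
    refine hG.differentiableOn.div (by fun_prop) fun z hz => ?_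
    exact den_ne ht0 ht hτ (by simpa using hz)

lemma cont_div (k : ℕ) {G : UnitAddCircle → ℂ} (hG : Continuous G) :
    Continuous fun x => G x / (1 + t * (τ * zet x) ^ k) := by
  refine hG.div ?_ fun x => den_ne ht0 ht hτ (norm_zet x).le
  exact continuous_const.add (continuous_const.mul ((continuous_const.mul continuous_zet).pow k))

lemma mean_div1 {k : ℕ} (hk : 0 < k) {K : ℕ} (h : ℕ → ℂ) (hkK : k < K) :
    ∫ x, (zet x)⁻¹ ^ k * pv K h (zet x) / (1 + t * (τ * zet x) ^ k) ∂nu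
      = h k - t * τ ^ k * h 0 := by
  have h1 : ∀ x : UnitAddCircle, (zet x)⁻¹ ^ k * pv K h (zet x) / (1 + t * (τ * zet x) ^ k)
      = (zet x)⁻¹ ^ k * pv K h (zet x)
        - t * τ ^ k * (pv K h (zet x) / (1 + t * (τ * zet x) ^ k)) := by
    intro x
    have h2 := den_ne ht0 ht hτ (k := k) (norm_zet x).le
    have h3 := zet_ne x
    have h4 : (zet x)⁻¹ ^ k * (zet x) ^ k = 1 := by
      rw [← mul_pow, inv_mul_cancel₀ h3, one_pow]
    rw [eq_sub_iff_add_eq, mul_div_assoc', ← add_div, div_eq_iff h2, mul_pow]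
    linear_combination (-(t : ℂ) * τ ^ k * pv K h (zet x)) * h4
  simp only [h1]
  rw [integral_sub, coef h hkK, integral_const_mul, mean_div ht0 ht hτ hk (pv_diff K h),
    pv_zero (by omega)]
  · refine int_of_cont (((continuous_zet.inv₀ zet_ne).pow k).mul (pv_cont K h))
  · exact int_of_cont (continuous_const.mul (cont_div ht0 ht hτ k (pv_cont K h)))

end psi

/-- The unimodular test function. -/
def psi (t : ℝ) (τ ω : ℂ) (k : ℕ) (x : UnitAddCircle) : ℂ :=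
  ω * (1 + t * (conj (τ * zet x)) ^ k) / (1 + t * (τ * zet x) ^ k)

section psi2

variable {t : ℝ} (ht0 : 0 ≤ t) (ht : t ≤ 1 / 2) {τ ω : ℂ} (hτ : ‖τ‖ = 1) (hω : ‖ω‖ = 1)

include ht0 ht hτ

lemma psi_cont (k : ℕ) : Continuous (psi t τ ω k) := by
  unfold psi
  refine cont_div ht0 ht hτ k ?_
  have := continuous_zet
  fun_prop

include hω in
lemma psi_norm (k : ℕ) (x : UnitAddCircle) : ‖psi t τ ω k x‖ = 1 := by
  unfold psi
  have h2 := den_ne ht0 ht hτ (k := k) (norm_zet x).le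
  have h1 : 1 + (t : ℂ) * (conj (τ * zet x)) ^ k = conj (1 + t * (τ * zet x) ^ k) := by
    simp
  rw [norm_div, norm_mul, hω, one_mul, h1, RCLike.norm_conj, div_self (norm_ne_zero_iff.mpr h2)]

lemma psi_mul {k : ℕ} (x : UnitAddCircle) (v : ℂ) :
    v * psi t τ ω k x = ω * (v / (1 + t * (τ * zet x) ^ k))
      + ω * t * (conj τ) ^ k * ((zet x)⁻¹ ^ k * v / (1 + t * (τ * zet x) ^ k)) := by
  unfold psi
  rw [map_mul, conj_zet, mul_pow]
  ring

lemma mean_psi {k : ℕ} (hk : 0 < k) {K : ℕ} (h : ℕ → ℂ) (hkK : k < K) :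
    ∫ x, pv K h (zet x) * psi t τ ω k x ∂nu
      = ω * ((1 - t ^ 2) * h 0 + t * (conj τ) ^ k * h k) := by
  have hττ : (conj τ) ^ k * τ ^ k = 1 := by
    rw [← mul_pow, mul_comm, Complex.mul_conj, Complex.normSq_eq_norm_sq, hτ]
    simp
  simp only [psi_mul ht0 ht hτ]
  rw [integral_add, integral_const_mul, integral_const_mul, mean_div1 ht0 ht hτ hk h hkK,
    mean_div ht0 ht hτ hk (pv_diff K h), pv_zero (by omega)]
  · linear_combination (-ω * t ^ 2 * h 0) * hττ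
  · exact int_of_cont (continuous_const.mul (cont_div ht0 ht hτ k (pv_cont K h)))
  · exact int_of_cont (continuous_const.mul (cont_div ht0 ht hτ k
      (((continuous_zet.inv₀ zet_ne).pow k).mul (pv_cont K h))))

end psi2

lemma exists_phase (z : ℂ) : ∃ u : ℂ, ‖u‖ = 1 ∧ u * z = ‖z‖ := by
  by_cases hz : z = 0
  · exact ⟨1, by simp, by simp [hz]⟩
  · refine ⟨conj z / ‖z‖, ?_, ?_⟩
    · rw [norm_div, RCLike.norm_conj, Complex.norm_real, norm_norm,
        div_self (norm_ne_zero_iff.mpr hz)]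
    · have h1 : (‖z‖ : ℂ) ≠ 0 := by exact_mod_cast norm_ne_zero_iff.mpr hz
      rw [div_mul_eq_mul_div, div_eq_iff h1, mul_comm, Complex.mul_conj,
        Complex.normSq_eq_norm_sq]
      push_cast
      ring

lemma exists_root {u : ℂ} (hu : ‖u‖ = 1) {k : ℕ} (hk : 0 < k) : ∃ v : ℂ, ‖v‖ = 1 ∧ v ^ k = u := by
  obtain ⟨v, hv⟩ := IsAlgClosed.exists_pow_nat_eq u hk
  refine ⟨v, ?_, hv⟩
  have : ‖v‖ ^ k = 1 := by rw [← norm_pow, hv, hu]
  exact (pow_eq_one_iff_of_nonneg (norm_nonneg _) hk.ne').mp this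

lemma exists_phases (a b : ℂ) {k : ℕ} (hk : 0 < k) :
    ∃ ω τ : ℂ, ‖ω‖ = 1 ∧ ‖τ‖ = 1 ∧ ω * a = ‖a‖ ∧ ω * ((conj τ) ^ k * b) = ‖b‖ := by
  obtain ⟨ω, hω, hωa⟩ := exists_phase a
  obtain ⟨u, hu, hub⟩ := exists_phase (ω * b)
  obtain ⟨v, hv, hvk⟩ := exists_root hu hk
  refine ⟨ω, conj v, hω, by rw [RCLike.norm_conj, hv], hωa, ?_⟩
  rw [Complex.conj_conj, hvk]
  rw [norm_mul, hω, one_mul] at hub
  linear_combination hub

/-- `|h 0| (1 - t ^ 2) + t |h k| ≤ ∫ |H|`. -/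
lemma ineqA {t : ℝ} (ht0 : 0 ≤ t) (ht : t ≤ 1 / 2) {k : ℕ} (hk : 0 < k) {K : ℕ} (h : ℕ → ℂ)
    (hkK : k < K) :
    (1 - t ^ 2) * ‖h 0‖ + t * ‖h k‖ ≤ ∫ x, ‖pv K h (zet x)‖ ∂nu := by
  obtain ⟨ω, τ, hω, hτ, h0, h1⟩ := exists_phases (h 0) (h k) hk
  have h2 := mean_psi ht0 ht hτ (ω := ω) hk h hkK
  have h3 : ω * ((1 - (t : ℂ) ^ 2) * h 0 + t * (conj τ) ^ k * h k)
      = (((1 - t ^ 2) * ‖h 0‖ + t * ‖h k‖ : ℝ) : ℂ) := by
    push_cast
    linear_combination (1 - (t : ℂ) ^ 2) * h0 + t * h1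
  rw [h3] at h2
  have h4 : 0 ≤ (1 - t ^ 2) * ‖h 0‖ + t * ‖h k‖ := by
    have : 0 ≤ 1 - t ^ 2 := by nlinarith
    positivity
  calc (1 - t ^ 2) * ‖h 0‖ + t * ‖h k‖
      = ‖(((1 - t ^ 2) * ‖h 0‖ + t * ‖h k‖ : ℝ) : ℂ)‖ := by
        rw [Complex.norm_real, Real.norm_of_nonneg h4]
    _ = ‖∫ x, pv K h (zet x) * psi t τ ω k x ∂nu‖ := by rw [h2]
    _ ≤ ∫ x, ‖pv K h (zet x) * psi t τ ω k x‖ ∂nu := norm_integral_le_integral_norm _
    _ = ∫ x, ‖pv K h (zet x)‖ ∂nu := by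
        refine integral_congr_ae (Filter.Eventually.of_forall fun x => ?_)
        simp only
        rw [norm_mul, psi_norm ht0 ht hτ hω, mul_one]

lemma coeff_le {K : ℕ} (h : ℕ → ℂ) {k : ℕ} (hkK : k < K) :
    ‖h k‖ ≤ ∫ x, ‖pv K h (zet x)‖ ∂nu := by
  rw [← coef h hkK]
  refine (norm_integral_le_integral_norm _).trans (le_of_eq ?_)
  refine integral_congr_ae (Filter.Eventually.of_forall fun x => ?_)
  simp only
  rw [norm_mul, norm_pow, norm_inv, norm_zet, inv_one, one_pow, one_mul]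

/-- The cosine. -/
def cs (τ : ℂ) (x : UnitAddCircle) : ℝ := (τ * zet x).re

lemma cs_cont (τ : ℂ) : Continuous (cs τ) :=
  Complex.continuous_re.comp (continuous_const.mul continuous_zet)

lemma cs_eq (τ : ℂ) (x : UnitAddCircle) :
    ((cs τ x : ℝ) : ℂ) = (τ * zet x + conj τ * (zet x)⁻¹) / 2 := by
  unfold cs
  rw [Complex.re_eq_add_conj, map_mul, conj_zet]

lemma cs_abs {τ : ℂ} (hτ : ‖τ‖ = 1) (x : UnitAddCircle) : |cs τ x| ≤ 1 := by
  refine (Complex.abs_re_le_norm _).trans ?_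
  rw [norm_mul, hτ, norm_zet, one_mul]

lemma mean_cs (τ : ℂ) : ∫ x, cs τ x ∂nu = 0 := by
  have h1 : ∫ x, ((cs τ x : ℝ) : ℂ) ∂nu = 0 := by
    simp only [cs_eq]
    rw [integral_div, integral_add, integral_const_mul, integral_const_mul]
    · have e1 := mean_zpow 1
      have e2 := mean_zpow (-1)
      simp only [zpow_one, one_ne_zero, if_false] at e1
      simp only [zpow_neg, zpow_one, neg_eq_zero, one_ne_zero, if_false] at e2
      rw [e1, e2]
      simp
    · exact int_of_cont (continuous_const.mul continuous_zet)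
    · exact int_of_cont (continuous_const.mul (continuous_zet.inv₀ zet_ne))
  rw [integral_complex_ofReal] at h1
  exact_mod_cast h1

lemma mean_cs_sq {τ : ℂ} (hτ : ‖τ‖ = 1) : ∫ x, cs τ x ^ 2 ∂nu = 1 / 2 := by
  have hττ : conj τ * τ = 1 := by
    rw [mul_comm, Complex.mul_conj, Complex.normSq_eq_norm_sq, hτ]
    simp
  have h1 : ∫ x, ((cs τ x ^ 2 : ℝ) : ℂ) ∂nu = 1 / 2 := by
    have h2 : ∀ x : UnitAddCircle, ((cs τ x ^ 2 : ℝ) : ℂ)
        = τ ^ 2 / 4 * zet x ^ (2 : ℤ) + (1 / 2 + conj τ ^ 2 / 4 * zet x ^ (-2 : ℤ)) := by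
      intro x
      have h3 := zet_ne x
      have e1 : zet x ^ (2 : ℤ) = zet x ^ 2 := by norm_cast
      have e2 : zet x ^ (-2 : ℤ) = (zet x)⁻¹ ^ 2 := by
        rw [zpow_neg, e1, inv_pow]
      rw [e1, e2]
      push_cast
      rw [cs_eq]
      have h4 : zet x * (zet x)⁻¹ = 1 := mul_inv_cancel₀ h3
      linear_combination (1 / 2) * hττ + (1 / 2) * (conj τ * τ) * h4
    simp only [h2]
    rw [integral_add, integral_add, integral_const_mul, integral_const_mul, mean_zpow, mean_zpow]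
    · simp
    · exact integrable_const _
    · exact int_of_cont (continuous_const.mul (continuous_zet.zpow₀ _ fun t => Or.inl (zet_ne t)))
    · exact int_of_cont (continuous_const.mul (continuous_zet.zpow₀ _ fun t => Or.inl (zet_ne t)))
    · exact int_of_cont (continuous_const.add
        (continuous_const.mul (continuous_zet.zpow₀ _ fun t => Or.inl (zet_ne t))))
  rw [integral_complex_ofReal] at h1
  have : ((∫ x, cs τ x ^ 2 ∂nu : ℝ) : ℂ) = ((1 / 2 : ℝ) : ℂ) := by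
    rw [h1]
    push_cast
    ring
  exact_mod_cast this

lemma int4 {f₁ f₂ f₃ f₄ : UnitAddCircle → ℂ} (i₁ : Integrable f₁ nu) (i₂ : Integrable f₂ nu)
    (i₃ : Integrable f₃ nu) (i₄ : Integrable f₄ nu) (c₁ c₂ c₃ c₄ : ℂ) :
    ∫ x, (c₁ * f₁ x + (c₂ * f₂ x + (c₃ * f₃ x + c₄ * f₄ x))) ∂nu
      = c₁ * ∫ x, f₁ x ∂nu + (c₂ * ∫ x, f₂ x ∂nu + (c₃ * ∫ x, f₃ x ∂nu + c₄ * ∫ x, f₄ x ∂nu)) := by
  have e3 : Integrable (fun x => c₃ * f₃ x + c₄ * f₄ x) nu := (i₃.const_mul _).add (i₄.const_mul _)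
  have e2 : Integrable (fun x => c₂ * f₂ x + (c₃ * f₃ x + c₄ * f₄ x)) nu := (i₂.const_mul _).add e3
  rw [integral_add (i₁.const_mul _) e2, integral_add (i₂.const_mul _) e3,
    integral_add (i₃.const_mul _) (i₄.const_mul _)]
  simp only [integral_const_mul]

section psi3

variable {t : ℝ} (ht0 : 0 ≤ t) (ht : t ≤ 1 / 2) {τ ω : ℂ} (hτ : ‖τ‖ = 1)

include ht0 ht hτ

lemma mean_div2 {K : ℕ} (h : ℕ → ℂ) (hK : 2 < K) :
    ∫ x, (zet x)⁻¹ ^ 2 * pv K h (zet x) / (1 + t * (τ * zet x) ^ 1) ∂nu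
      = h 2 - t * τ * (h 1 - t * τ * h 0) := by
  have h1 : ∀ x : UnitAddCircle, (zet x)⁻¹ ^ 2 * pv K h (zet x) / (1 + t * (τ * zet x) ^ 1)
      = (zet x)⁻¹ ^ 2 * pv K h (zet x)
        - t * τ * ((zet x)⁻¹ ^ 1 * pv K h (zet x) / (1 + t * (τ * zet x) ^ 1)) := by
    intro x
    have h2 := den_ne ht0 ht hτ (k := 1) (norm_zet x).le
    have h3 := zet_ne x
    have h4 : (zet x)⁻¹ * (zet x) = 1 := inv_mul_cancel₀ h3
    rw [eq_sub_iff_add_eq, mul_div_assoc', ← add_div, div_eq_iff h2]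
    linear_combination (-(t : ℂ) * τ * pv K h (zet x) * (zet x)⁻¹) * h4
  simp only [h1]
  rw [integral_sub, coef h hK, integral_const_mul, mean_div1 ht0 ht hτ one_pos h (by omega)]
  · ring
  · exact int_of_cont (((continuous_zet.inv₀ zet_ne).pow 2).mul (pv_cont K h))
  · exact int_of_cont (continuous_const.mul (cont_div ht0 ht hτ 1
      (((continuous_zet.inv₀ zet_ne).pow 1).mul (pv_cont K h))))

lemma mean_psi_cs {K : ℕ} (h : ℕ → ℂ) (hK : 2 < K) :
    ∫ x, pv K h (zet x) * psi t τ ω 1 x * ((cs τ x : ℝ) : ℂ) ∂nu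
      = ω / 2 * ((1 - t ^ 2) * (conj τ * h 1) + t * ((conj τ) ^ 2 * h 2) + t ^ 3 * h 0) := by
  have hττ : conj τ * τ = 1 := by
    rw [mul_comm, Complex.mul_conj, Complex.normSq_eq_norm_sq, hτ]
    simp
  have h1 : ∀ x : UnitAddCircle, pv K h (zet x) * psi t τ ω 1 x * ((cs τ x : ℝ) : ℂ)
      = ω / 2 * τ * (zet x * pv K h (zet x) / (1 + t * (τ * zet x) ^ 1))
        + (ω / 2 * t * (pv K h (zet x) / (1 + t * (τ * zet x) ^ 1))
        + (ω / 2 * conj τ * ((zet x)⁻¹ ^ 1 * pv K h (zet x) / (1 + t * (τ * zet x) ^ 1))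
        + ω / 2 * t * (conj τ) ^ 2
          * ((zet x)⁻¹ ^ 2 * pv K h (zet x) / (1 + t * (τ * zet x) ^ 1)))) := by
    intro x
    have h2 := den_ne ht0 ht hτ (k := 1) (norm_zet x).le
    have h3 := zet_ne x
    have h4 : (zet x)⁻¹ * (zet x) = 1 := inv_mul_cancel₀ h3
    rw [cs_eq]
    unfold psi
    rw [map_mul, conj_zet]
    simp only [div_eq_mul_inv]
    generalize (1 + (t : ℂ) * (τ * zet x) ^ 1)⁻¹ = Di
    linear_combination (ω / 2 * t * pv K h (zet x) * Di) * (hττ + (conj τ * τ) * h4)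
  simp only [h1]
  have i1 : Integrable (fun x : UnitAddCircle => zet x * pv K h (zet x)
      / (1 + t * (τ * zet x) ^ 1)) nu :=
    int_of_cont (cont_div ht0 ht hτ 1 (continuous_zet.mul (pv_cont K h)))
  have i2 : Integrable (fun x : UnitAddCircle => pv K h (zet x)
      / (1 + t * (τ * zet x) ^ 1)) nu :=
    int_of_cont (cont_div ht0 ht hτ 1 (pv_cont K h))
  have i3 : Integrable (fun x : UnitAddCircle => (zet x)⁻¹ ^ 1 * pv K h (zet x)
      / (1 + t * (τ * zet x) ^ 1)) nu :=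
    int_of_cont (cont_div ht0 ht hτ 1 (((continuous_zet.inv₀ zet_ne).pow 1).mul (pv_cont K h)))
  have i4 : Integrable (fun x : UnitAddCircle => (zet x)⁻¹ ^ 2 * pv K h (zet x)
      / (1 + t * (τ * zet x) ^ 1)) nu :=
    int_of_cont (cont_div ht0 ht hτ 1 (((continuous_zet.inv₀ zet_ne).pow 2).mul (pv_cont K h)))
  rw [int4 i1 i2 i3 i4]
  rw [mean_div2 ht0 ht hτ h hK, mean_div1 ht0 ht hτ one_pos h (by omega),
    mean_div ht0 ht hτ one_pos (pv_diff K h)]
  have e1 : ∫ x, zet x * pv K h (zet x) / (1 + t * (τ * zet x) ^ 1) ∂nu = 0 := by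
    have := mean_div ht0 ht hτ one_pos (differentiable_id.mul (pv_diff K h))
    simpa using this
  rw [e1, pv_zero (by omega)]
  linear_combination (-(ω / 2) * t * h 0 - (ω / 2) * t ^ 2 * h 1 * conj τ
    + (ω / 2) * t ^ 3 * h 0 * (conj τ * τ + 1)) * hττ

end psi3

end

end Pool.Agent.W767.HD
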