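import Pool.Agent.W767.HD.Sc1

/-!
# Quantitative one variable inequalities
-/

set_option autoImplicit false

namespace Pool.Agent.W767.HD

noncomputable section

open MeasureTheory Metric Filter Topology Complex
open scoped ComplexConjugate
open Pool.Agent.Helper873.OneVar

/-- The `L¹` norm on the circle. -/
def en (K : ℕ) (h : ℕ → ℂ) : ℝ := ∫ x, ‖pv K h (zet x)‖ ∂nu

/-- The deficit. -/
def sg (s : ℝ) (K : ℕ) (h : ℕ → ℂ) : ℝ := en K h - (1 - s ^ 2) * (‖h 0‖ + s * ‖h 1‖)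

lemma norm_pv_int (K : ℕ) (h : ℕ → ℂ) : Integrable (fun x => ‖pv K h (zet x)‖) nu :=
  int_of_cont (pv_cont K h).norm

lemma sg_lower {s θ : ℝ} (hs : 0 ≤ s) (h0 : 0 ≤ s + θ) (h1 : s + θ ≤ 1 / 2) {K : ℕ} (hK : 2 < K)
    (h : ℕ → ℂ) : θ * (‖h 1‖ - (2 * s + θ) * ‖h 0‖) ≤ sg s K h := by
  have h2 := ineqA h0 h1 one_pos h (show 1 < K by omega)
  unfold sg en
  have h3 : 0 ≤ s ^ 3 * ‖h 1‖ := by positivity
  nlinarith

lemma sg_nonneg {s : ℝ} (hs : 0 ≤ s) (hs1 : s ≤ 1 / 2) {K : ℕ} (hK : 2 < K) (h : ℕ → ℂ) :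
    0 ≤ sg s K h := by
  have := sg_lower (θ := 0) hs (by linarith) (by linarith) hK h
  linarith

lemma sg_sq {s : ℝ} (hs : 0 ≤ s) (hs1 : s ≤ 1 / 2) {K : ℕ} (hK : 2 < K) (h : ℕ → ℂ)
    (hy : ‖h 1‖ ≤ 2 * s * ‖h 0‖) : (2 * s * ‖h 0‖ - ‖h 1‖) ^ 2 ≤ 4 * ‖h 0‖ * sg s K h := by
  rcases (norm_nonneg (h 0)).eq_or_lt with h0 | h0
  · rw [← h0] at hy ⊢
    have : ‖h 1‖ = 0 := le_antisymm (by linarith) (norm_nonneg _)
    rw [this]
    simp
  · have hy0 := norm_nonneg (h 1)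
    have h2 := sg_lower (θ := -(2 * s * ‖h 0‖ - ‖h 1‖) / (2 * ‖h 0‖)) hs ?_ ?_ hK h
    · have h3 : -(2 * s * ‖h 0‖ - ‖h 1‖) / (2 * ‖h 0‖)
          * (‖h 1‖ - (2 * s + -(2 * s * ‖h 0‖ - ‖h 1‖) / (2 * ‖h 0‖)) * ‖h 0‖)
          = (2 * s * ‖h 0‖ - ‖h 1‖) ^ 2 / (4 * ‖h 0‖) := by
        field_simp
        ring
      rw [h3, div_le_iff₀ (by positivity)] at h2
      linarith
    · have : s + -(2 * s * ‖h 0‖ - ‖h 1‖) / (2 * ‖h 0‖) = ‖h 1‖ / (2 * ‖h 0‖) := by
        field_simp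
        ring
      rw [this]
      positivity
    · have : -(2 * s * ‖h 0‖ - ‖h 1‖) / (2 * ‖h 0‖) ≤ 0 :=
        div_nonpos_of_nonpos_of_nonneg (by linarith) (by positivity)
      linarith

lemma en_sub_le {s : ℝ} (hs : 0 ≤ s) (hs1 : s ≤ 1 / 4) {K : ℕ} (hK : 2 < K) (h : ℕ → ℂ) :
    en K h - ‖h 0‖ ≤ 2 * s ^ 2 * ‖h 0‖ + 2 * sg s K h := by
  have h1 := sg_lower (θ := s) hs (by linarith) (by linarith) hK h
  have h2 : en K h = sg s K h + (1 - s ^ 2) * (‖h 0‖ + s * ‖h 1‖) := by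
    unfold sg
    ring
  have h3 : 0 ≤ s ^ 3 * ‖h 1‖ := by positivity
  nlinarith

lemma s_coeff_le {s : ℝ} (hs : 0 ≤ s) (hs1 : s ≤ 1 / 2) {K : ℕ} (h : ℕ → ℂ) {k : ℕ} (hk : 0 < k)
    (hkK : k < K) : s * ‖h k‖ ≤ (en K h - ‖h 0‖) + s ^ 2 * ‖h 0‖ := by
  have := ineqA hs hs1 hk h hkK
  unfold en
  linarith

lemma le_en {K : ℕ} (hK : 0 < K) (h : ℕ → ℂ) : ‖h 0‖ ≤ en K h := coeff_le h hK

/-- Bound for the sum of all coefficients. -/
lemma sum_coeff {s : ℝ} (hs : 0 ≤ s) (hs1 : s ≤ 1 / 2) {K : ℕ} (hK : 2 < K) (h : ℕ → ℂ) :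
    ∑ k ∈ Finset.range K, s ^ k * ‖h k‖
      ≤ ‖h 0‖ + s * ‖h 1‖ + 2 * s * ((en K h - ‖h 0‖) + s ^ 2 * ‖h 0‖) := by
  obtain ⟨L, rfl⟩ : ∃ L, K = L + 2 := ⟨K - 2, by omega⟩
  rw [Finset.sum_range_succ', Finset.sum_range_succ']
  set A := (en (L + 2) h - ‖h 0‖) + s ^ 2 * ‖h 0‖ with hA
  have hA0 : 0 ≤ A := by
    have := le_en (show 0 < L + 2 by omega) h
    have h2 : 0 ≤ s ^ 2 * ‖h 0‖ := by positivity
    linarith
  have h1 : ∑ k ∈ Finset.range L, s ^ (k + 1 + 1) * ‖h (k + 1 + 1)‖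
      ≤ ∑ k ∈ Finset.range L, s * A * s ^ k := by
    refine Finset.sum_le_sum fun k hk => ?_
    have h2 := s_coeff_le hs hs1 (K := L + 2) h (k := k + 1 + 1) (by omega)
      (by rw [Finset.mem_range] at hk; omega)
    calc s ^ (k + 1 + 1) * ‖h (k + 1 + 1)‖ = s ^ (k + 1) * (s * ‖h (k + 1 + 1)‖) := by ring
      _ ≤ s ^ (k + 1) * A := mul_le_mul_of_nonneg_left h2 (by positivity)
      _ = s * A * s ^ k := by ring
  have h3 : ∑ k ∈ Finset.range L, s * A * s ^ k ≤ 2 * s * A := by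
    rw [← Finset.mul_sum]
    have h4 : ∑ k ∈ Finset.range L, s ^ k ≤ 2 := by
      have h5 : ∑ k ∈ Finset.range L, s ^ k ≤ (1 - s)⁻¹ := by
        rw [← tsum_geometric_of_lt_one hs (by linarith)]
        exact (summable_geometric_of_lt_one hs (by linarith)).sum_le_tsum _
          fun _ _ => by positivity
      refine h5.trans ?_
      rw [inv_le_comm₀ (by linarith) two_pos]
      linarith
    have h6 : 0 ≤ s * A := by positivity
    nlinarith
  simp only [zero_add, pow_one, pow_zero, one_mul]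
  linarith

/-- AM-GM. -/
lemma two_sqrt_le {A w v : ℝ} (hA : 0 ≤ A) (hw : 0 < w) (hv : 0 < v) (h : w * v = 1) :
    2 * Real.sqrt A ≤ w + A * v := by
  have h1 : 0 ≤ w + A * v := by positivity
  refine le_of_sq_le_sq ?_ h1
  rw [mul_pow, Real.sq_sqrt hA]
  nlinarith [sq_nonneg (w - A * v)]

/-- The main one variable inequality. -/
lemma main_one {s l : ℝ} (hs : 0 < s) (hs1 : s ≤ 1 / 400) (hl : 0 < l) {K : ℕ} (hK : 2 < K)
    (h : ℕ → ℂ) :
    Real.sqrt (l + ‖h 0‖) * ∫ x, Real.sqrt (l + ‖pv K h (zet x)‖) ∂nu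
      ≤ (l + ‖h 0‖) + s ^ 2 * (‖h 0‖ / 2 - ‖h 0‖ ^ 2 / (4 * (l + ‖h 0‖)) + ‖h 0‖ / 100)
        + 52 * sg s K h := by
  obtain ⟨ω, τ, hω, hτ, h0, h1⟩ := exists_phases (h 0) (h 1) one_pos
  rw [pow_one] at h1
  set x := ‖h 0‖ with hx
  set y := ‖h 1‖ with hy
  have hx0 : 0 ≤ x := norm_nonneg _
  have hy0 : 0 ≤ y := norm_nonneg _
  set La := l + x with hLa
  have hLa0 : 0 < La := by positivity
  set q := Real.sqrt La with hq
  have hq0 : 0 < q := Real.sqrt_pos.mpr hLa0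
  have hqq : q * q = La := Real.mul_self_sqrt hLa0.le
  set ξ := x / La with hξ
  have hξ0 : 0 ≤ ξ := by positivity
  have hξ1 : ξ ≤ 1 := by
    rw [hξ, div_le_one hLa0]
    linarith
  have hξL : La * ξ = x := by
    rw [hξ]
    field_simp
  set β := s * ξ with hβ
  have hβ0 : 0 ≤ β := by positivity
  have hβs : β ≤ s := mul_le_of_le_one_right hs.le hξ1
  -- the test weights
  have hc := cs_cont τ
  have hyb : ∀ t, |β * cs τ t| ≤ 1 / 4 := by
    intro t
    rw [abs_mul, abs_of_nonneg hβ0]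
    have := cs_abs hτ t
    nlinarith [abs_nonneg (cs τ t)]
  have hpos : ∀ t, 0 < 1 - β * cs τ t := fun t => by
    have := (abs_le.mp (hyb t)).2
    linarith
  have hHc : Continuous fun t => ‖pv K h (zet t)‖ := (pv_cont K h).norm
  have hwi : Integrable (fun t => q / (1 - β * cs τ t)) nu :=
    int_of_cont (continuous_const.div (continuous_const.sub (continuous_const.mul hc))
      fun t => (hpos t).ne')
  have hvc : Continuous fun t => (1 - β * cs τ t) / q :=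
    (continuous_const.sub (continuous_const.mul hc)).div_const _
  have hmain : 2 * ∫ t, Real.sqrt (l + ‖pv K h (zet t)‖) ∂nu
      ≤ ∫ t, q / (1 - β * cs τ t) ∂nu
        + (l * ∫ t, (1 - β * cs τ t) / q ∂nu
          + ∫ t, ‖pv K h (zet t)‖ * ((1 - β * cs τ t) / q) ∂nu) := by
    have i1 : Integrable (fun t => l * ((1 - β * cs τ t) / q)) nu :=
      int_of_cont (continuous_const.mul hvc)
    have i2 : Integrable (fun t => ‖pv K h (zet t)‖ * ((1 - β * cs τ t) / q)) nu :=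
      int_of_cont (hHc.mul hvc)
    have i3 : Integrable (fun t => 2 * Real.sqrt (l + ‖pv K h (zet t)‖)) nu :=
      int_of_cont (continuous_const.mul (Real.continuous_sqrt.comp (continuous_const.add hHc)))
    have i4 : Integrable (fun t => l * ((1 - β * cs τ t) / q)
        + ‖pv K h (zet t)‖ * ((1 - β * cs τ t) / q)) nu := i1.add i2
    rw [← integral_const_mul, ← integral_const_mul, ← integral_add i1 i2, ← integral_add hwi i4]
    refine integral_mono i3 (hwi.add i4) fun t => ?_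
    have hp := hpos t
    have := two_sqrt_le (A := l + ‖pv K h (zet t)‖) (w := q / (1 - β * cs τ t))
      (v := (1 - β * cs τ t) / q) (by positivity) (by positivity) (by positivity)
      (by field_simp)
    simp only
    linarith
  -- first term
  have ht1 : ∫ t, q / (1 - β * cs τ t) ∂nu ≤ q * (1 + β ^ 2 / 2 + 4 / 3 * β ^ 3) := by
    have e1 : ∫ t, (1 + β * cs τ t + β ^ 2 * cs τ t ^ 2 + 4 / 3 * β ^ 3) ∂nu
        = 1 + β ^ 2 / 2 + 4 / 3 * β ^ 3 := by
      have j1 : Integrable (fun t => β * cs τ t) nu := int_of_cont (continuous_const.mul hc)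
      have j2 : Integrable (fun t => β ^ 2 * cs τ t ^ 2) nu :=
        int_of_cont (continuous_const.mul (hc.pow 2))
      have j3 : Integrable (fun t => 1 + β * cs τ t) nu := (integrable_const _).add j1
      have j4 : Integrable (fun t => 1 + β * cs τ t + β ^ 2 * cs τ t ^ 2) nu := j3.add j2
      rw [integral_add j4 (integrable_const _), integral_add j3 j2,
        integral_add (integrable_const _) j1,
        integral_const_mul, integral_const_mul, mean_cs, mean_cs_sq hτ]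
      simp only [integral_const, probReal_univ, one_smul]
      ring
    rw [← e1, ← integral_const_mul]
    refine integral_mono hwi (int_of_cont (by fun_prop)) fun t => ?_
    simp only
    rw [div_eq_mul_inv]
    refine mul_le_mul_of_nonneg_left ?_ hq0.le
    have hp := hpos t
    set u := β * cs τ t with hu
    have hu1 := hyb t
    have hub : |u| ≤ β := by
      rw [hu, abs_mul, abs_of_nonneg hβ0]
      have := cs_abs hτ t
      nlinarith [abs_nonneg (cs τ t)]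
    rw [inv_le_iff_one_le_mul₀ hp]
    have hu3 : |u| ^ 3 ≤ β ^ 3 := pow_le_pow_left₀ (abs_nonneg _) hub 3
    have e2 : β ^ 2 * cs τ t ^ 2 = u ^ 2 := by rw [hu]; ring
    rw [e2]
    have hu4 : u ^ 3 ≤ |u| ^ 3 := by
      rw [← abs_pow]
      exact le_abs_self _
    have hu5 : 3 / 4 ≤ 1 - u := by
      have := (abs_le.mp hu1).2
      linarith
    have hb3 : 0 ≤ β ^ 3 := by positivity
    have e6 : (1 + u + u ^ 2 + 4 / 3 * β ^ 3) * (1 - u)
        = 1 - u ^ 3 + 4 / 3 * (β ^ 3 * (1 - u)) := by ring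
    have e7 := mul_le_mul_of_nonneg_left hu5 hb3
    rw [e6]
    linarith
  -- second term
  have ht2 : ∫ t, (1 - β * cs τ t) / q ∂nu = 1 / q := by
    have j1 : Integrable (fun t => β * cs τ t) nu := int_of_cont (continuous_const.mul hc)
    rw [integral_div, integral_sub (integrable_const _) j1, integral_const_mul, mean_cs]
    simp
  -- third term
  set ψ := psi s τ ω 1 with hψ
  have hs2 : s ≤ 1 / 2 := by linarith
  have hψc : Continuous ψ := psi_cont hs.le hs2 hτ 1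
  have hm1 := mean_psi hs.le hs2 hτ (ω := ω) one_pos h (show 1 < K by omega)
  have hm2 := mean_psi_cs hs.le hs2 hτ (ω := ω) h hK
  have hm1' : (∫ t, pv K h (zet t) * ψ t ∂nu).re = (1 - s ^ 2) * x + s * y := by
    rw [hψ, hm1]
    have : ω * ((1 - (s : ℂ) ^ 2) * h 0 + s * (conj τ) ^ 1 * h 1)
        = (((1 - s ^ 2) * x + s * y : ℝ) : ℂ) := by
      push_cast
      rw [pow_one]
      linear_combination (1 - (s : ℂ) ^ 2) * h0 + s * h1
    rw [this, Complex.ofReal_re]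
  have hm2' : (1 - s ^ 2) * y / 2 - s * ‖h 2‖ / 2
      ≤ (∫ t, pv K h (zet t) * ψ t * ((cs τ t : ℝ) : ℂ) ∂nu).re := by
    rw [hψ, hm2]
    have e3 : ω / 2 * ((1 - (s : ℂ) ^ 2) * (conj τ * h 1) + s * ((conj τ) ^ 2 * h 2)
        + s ^ 3 * h 0) = (((1 - s ^ 2) * y / 2 + s ^ 3 * x / 2 : ℝ) : ℂ)
          + s / 2 * (ω * (conj τ) ^ 2 * h 2) := by
      push_cast
      linear_combination ((1 - (s : ℂ) ^ 2) / 2) * h1 + (s ^ 3 / 2) * h0
    rw [e3, Complex.add_re, Complex.ofReal_re]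
    have e4 : -(s * ‖h 2‖ / 2) ≤ ((s : ℂ) / 2 * (ω * (conj τ) ^ 2 * h 2)).re := by
      have h5 : |((s : ℂ) / 2 * (ω * (conj τ) ^ 2 * h 2)).re| ≤ s * ‖h 2‖ / 2 := by
        refine (Complex.abs_re_le_norm _).trans (le_of_eq ?_)
        rw [norm_mul, norm_mul, norm_mul, norm_pow, RCLike.norm_conj, hω, hτ, norm_div,
          Complex.norm_real, Real.norm_of_nonneg hs.le]
        simp
        ring
      linarith [(abs_le.mp h5).1]
    have e5 : 0 ≤ s ^ 3 * x / 2 := by positivity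
    linarith
  have ht3 : ∫ t, ‖pv K h (zet t)‖ * ((1 - β * cs τ t) / q) ∂nu
      ≤ 2 / q * (en K h - ((1 - s ^ 2) * x + s * y))
        + 1 / q * (((1 - s ^ 2) * x + s * y) - β * ((1 - s ^ 2) * y / 2 - s * ‖h 2‖ / 2)) := by
    have hpc : Continuous fun t => pv K h (zet t) * ψ t := (pv_cont K h).mul hψc
    have hcc : Continuous fun t => ((cs τ t : ℝ) : ℂ) := Complex.continuous_ofReal.comp hc
    have k1 : Integrable (fun t => (2 / q - (1 - β * cs τ t) / q) * (pv K h (zet t) * ψ t).re) nu :=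
      int_of_cont ((continuous_const.sub hvc).mul (Complex.continuous_re.comp hpc))
    have k2 : Integrable (fun t => (2 / q - (1 - β * cs τ t) / q) * ‖pv K h (zet t)‖) nu :=
      int_of_cont ((continuous_const.sub hvc).mul hHc)
    have k3 : Integrable (fun t => ‖pv K h (zet t)‖ * ((1 - β * cs τ t) / q)) nu :=
      int_of_cont (hHc.mul hvc)
    have k4 : Integrable (fun t => 2 / q * ‖pv K h (zet t)‖) nu :=
      int_of_cont (continuous_const.mul hHc)
    have k5 : Integrable (fun t => 1 / q * (pv K h (zet t) * ψ t).re) nu :=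
      int_of_cont (continuous_const.mul (Complex.continuous_re.comp hpc))
    have k6 : Integrable (fun t => β / q * (pv K h (zet t) * ψ t * ((cs τ t : ℝ) : ℂ)).re) nu :=
      int_of_cont (continuous_const.mul (Complex.continuous_re.comp (hpc.mul hcc)))
    have f1 : ∫ t, (2 / q - (1 - β * cs τ t) / q) * (pv K h (zet t) * ψ t).re ∂nu
        ≤ ∫ t, (2 / q - (1 - β * cs τ t) / q) * ‖pv K h (zet t)‖ ∂nu := by
      refine integral_mono k1 k2 fun t => ?_
      simp only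
      refine mul_le_mul_of_nonneg_left ?_ ?_
      · refine (Complex.re_le_norm _).trans ?_
        rw [norm_mul, hψ, psi_norm hs.le hs2 hτ hω, mul_one]
      · rw [← sub_div]
        have := (abs_le.mp (hyb t)).1
        refine div_nonneg ?_ hq0.le
        linarith
    have f2 : ∫ t, (2 / q - (1 - β * cs τ t) / q) * ‖pv K h (zet t)‖ ∂nu
        = 2 / q * en K h - ∫ t, ‖pv K h (zet t)‖ * ((1 - β * cs τ t) / q) ∂nu := by
      unfold en
      rw [← integral_const_mul, ← integral_sub k4 k3]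
      refine integral_congr_ae (Filter.Eventually.of_forall fun t => ?_)
      simp only
      ring
    have f3 : ∫ t, (2 / q - (1 - β * cs τ t) / q) * (pv K h (zet t) * ψ t).re ∂nu
        = 1 / q * (∫ t, pv K h (zet t) * ψ t ∂nu).re
          + β / q * (∫ t, pv K h (zet t) * ψ t * ((cs τ t : ℝ) : ℂ) ∂nu).re := by
      have g1 : (∫ t, pv K h (zet t) * ψ t ∂nu).re
          = ∫ t, (pv K h (zet t) * ψ t).re ∂nu := by
        have := integral_re (𝕜 := ℂ) (int_of_cont hpc)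
        exact this.symm
      have g2 : (∫ t, pv K h (zet t) * ψ t * ((cs τ t : ℝ) : ℂ) ∂nu).re
          = ∫ t, (pv K h (zet t) * ψ t * ((cs τ t : ℝ) : ℂ)).re ∂nu := by
        have := integral_re (𝕜 := ℂ) (int_of_cont (hpc.mul hcc))
        exact this.symm
      rw [g1, g2, ← integral_const_mul, ← integral_const_mul, ← integral_add k5 k6]
      refine integral_congr_ae (Filter.Eventually.of_forall fun t => ?_)
      simp only
      rw [Complex.re_mul_ofReal]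
      ring
    rw [f2, f3, hm1'] at f1
    have f4 : β / q * ((1 - s ^ 2) * y / 2 - s * ‖h 2‖ / 2)
        ≤ β / q * (∫ t, pv K h (zet t) * ψ t * ((cs τ t : ℝ) : ℂ) ∂nu).re :=
      mul_le_mul_of_nonneg_left hm2' (by positivity)
    have f5 : 2 / q * (en K h - ((1 - s ^ 2) * x + s * y))
        + 1 / q * (((1 - s ^ 2) * x + s * y) - β * ((1 - s ^ 2) * y / 2 - s * ‖h 2‖ / 2))
        = 2 / q * en K h - 1 / q * ((1 - s ^ 2) * x + s * y)
          - β / q * ((1 - s ^ 2) * y / 2 - s * ‖h 2‖ / 2) := by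
      ring
    rw [f5]
    linarith
  -- conclusion
  rw [ht2] at hmain
  have hfin : q * (2 * ∫ t, Real.sqrt (l + ‖pv K h (zet t)‖) ∂nu)
      ≤ La * (1 + β ^ 2 / 2 + 4 / 3 * β ^ 3) + l
        + (2 * (en K h - ((1 - s ^ 2) * x + s * y))
        + (((1 - s ^ 2) * x + s * y) - β * ((1 - s ^ 2) * y / 2 - s * ‖h 2‖ / 2))) := by
    have k1 : 2 * ∫ t, Real.sqrt (l + ‖pv K h (zet t)‖) ∂nu
        ≤ q * (1 + β ^ 2 / 2 + 4 / 3 * β ^ 3) + (l * (1 / q)
          + (2 / q * (en K h - ((1 - s ^ 2) * x + s * y))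
        + 1 / q * (((1 - s ^ 2) * x + s * y) - β * ((1 - s ^ 2) * y / 2 - s * ‖h 2‖ / 2)))) := by
      linarith
    refine (mul_le_mul_of_nonneg_left k1 hq0.le).trans (le_of_eq ?_)
    rw [← hqq]
    field_simp
    ring
  -- the deficit
  set G := sg s K h with hG
  have hG0 : 0 ≤ G := sg_nonneg hs.le hs2 hK h
  have hGe : en K h - ((1 - s ^ 2) * x + s * y) ≤ G := by
    rw [hG, sg]
    have : 0 ≤ s ^ 3 * y := by positivity
    rw [← hx, ← hy]
    have e6 : (1 - s ^ 2) * (x + s * y) = (1 - s ^ 2) * x + s * y - s ^ 3 * y := by ring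
    linarith
  have hr : s * (y - 2 * s * x) ≤ 100 * G + s ^ 2 * x / 100 := by
    have := sg_lower (θ := s / 100) hs.le (by positivity) (by linarith) hK h
    rw [← hx, ← hy, ← hG] at this
    have e6 : s / 100 * (y - (2 * s + s / 100) * x)
        = (s * (y - 2 * s * x) - s ^ 2 * x / 100) / 100 := by ring
    linarith
  have hh2 : s * ‖h 2‖ ≤ 3 * s ^ 2 * x + 2 * G := by
    have a1 := s_coeff_le hs.le hs2 h two_pos (show 2 < K by omega)
    have a2 := en_sub_le hs.le (by linarith) hK h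
    rw [← hx] at a1 a2
    linarith
  have hLβ2 : La * β ^ 2 = s ^ 2 * x * ξ := by
    rw [hβ]
    linear_combination (s ^ 2 * ξ) * hξL
  have hLβ3 : La * β ^ 3 = s ^ 3 * x * ξ ^ 2 := by
    rw [hβ]
    linear_combination (s ^ 3 * ξ ^ 2) * hξL
  have hxx : x ^ 2 / (4 * La) = x * ξ / 4 := by
    rw [hξ]
    field_simp
  rw [hxx]
  have hxL : La = l + x := hLa
  have hsy : s * y * (1 - ξ / 2 * (1 - s ^ 2)) ≤ 2 * s ^ 2 * x * (1 - ξ / 2 * (1 - s ^ 2))
      + (100 * G + s ^ 2 * x / 100) := by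
    have b0 : 0 ≤ 1 - s ^ 2 := by
      have : s ^ 2 ≤ 1 := pow_le_one₀ hs.le (by linarith)
      linarith
    have b1 : 1 - s ^ 2 ≤ 1 := sub_le_self _ (sq_nonneg s)
    have b2 : ξ / 2 * (1 - s ^ 2) ≤ 1 / 2 * 1 :=
      mul_le_mul (by linarith) b1 b0 (by norm_num)
    have a0 : 0 ≤ 1 - ξ / 2 * (1 - s ^ 2) := by linarith
    have a1 : 1 - ξ / 2 * (1 - s ^ 2) ≤ 1 := by
      have : 0 ≤ ξ / 2 * (1 - s ^ 2) := by positivity
      linarith
    have a2 : 0 ≤ 100 * G + s ^ 2 * x / 100 := by positivity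
    have a3 := mul_le_mul_of_nonneg_right hr a0
    have a4 : (100 * G + s ^ 2 * x / 100) * (1 - ξ / 2 * (1 - s ^ 2))
        ≤ 100 * G + s ^ 2 * x / 100 := mul_le_of_le_one_right a2 a1
    have a5 : s * y * (1 - ξ / 2 * (1 - s ^ 2)) = s * (y - 2 * s * x) * (1 - ξ / 2 * (1 - s ^ 2))
        + 2 * s ^ 2 * x * (1 - ξ / 2 * (1 - s ^ 2)) := by ring
    linarith
  have hs3 : s ^ 3 * x ≤ s ^ 2 * x / 400 := by
    have h9 : 0 ≤ s ^ 2 * x := by positivity
    calc s ^ 3 * x = s * (s ^ 2 * x) := by ring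
      _ ≤ 1 / 400 * (s ^ 2 * x) := mul_le_mul_of_nonneg_right hs1 h9
      _ = s ^ 2 * x / 400 := by ring
  have hs4 : s ^ 4 * x ≤ s ^ 2 * x / 400 := by
    have h9 : 0 ≤ s ^ 3 * x := by positivity
    calc s ^ 4 * x = s * (s ^ 3 * x) := by ring
      _ ≤ 1 * (s ^ 3 * x) := mul_le_mul_of_nonneg_right (by linarith) h9
      _ ≤ s ^ 2 * x / 400 := by linarith
  have hξs3 : s ^ 3 * x * ξ ^ 2 ≤ s ^ 3 * x := by
    refine mul_le_of_le_one_right (by positivity) (pow_le_one₀ hξ0 hξ1)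
  have hξs4 : s ^ 4 * x * ξ ≤ s ^ 4 * x :=
    mul_le_of_le_one_right (by positivity) hξ1
  have hh3 : s * ξ * (s * ‖h 2‖) ≤ s * (3 * s ^ 2 * x + 2 * G) := by
    calc s * ξ * (s * ‖h 2‖) ≤ s * 1 * (3 * s ^ 2 * x + 2 * G) := by
          refine mul_le_mul (mul_le_mul_of_nonneg_left hξ1 hs.le) hh2 (by positivity) (by positivity)
      _ = _ := by ring
  have hsG : s * G ≤ G / 400 := by
    calc s * G ≤ 1 / 400 * G := mul_le_mul_of_nonneg_right hs1 hG0
      _ = G / 400 := by ring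
  have hβy : β * ((1 - s ^ 2) * y / 2 - s * ‖h 2‖ / 2)
      = s * y * (ξ / 2 * (1 - s ^ 2)) - s * ξ * (s * ‖h 2‖) / 2 := by
    rw [hβ]
    ring
  rw [hβy] at hfin
  have e9 : La * (1 + β ^ 2 / 2 + 4 / 3 * β ^ 3)
      = La + s ^ 2 * x * ξ / 2 + 4 / 3 * (s ^ 3 * x * ξ ^ 2) := by
    linear_combination (1 / 2) * hLβ2 + (4 / 3) * hLβ3
  rw [e9] at hfin
  have e10 : s * y * (1 - ξ / 2 * (1 - s ^ 2)) = s * y - s * y * (ξ / 2 * (1 - s ^ 2)) := by ring
  have e11 : 2 * s ^ 2 * x * (1 - ξ / 2 * (1 - s ^ 2))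
      = 2 * (s ^ 2 * x) - s ^ 2 * x * ξ + s ^ 4 * x * ξ := by ring
  have e12 : s * (3 * s ^ 2 * x + 2 * G) = 3 * (s ^ 3 * x) + 2 * (s * G) := by ring
  rw [e10, e11] at hsy
  rw [e12] at hh3
  have e13 : s ^ 2 * (x / 2 - x * ξ / 4 + x / 100)
      = s ^ 2 * x / 2 - s ^ 2 * x * ξ / 4 + s ^ 2 * x / 100 := by ring
  rw [e13]
  have e14 : (1 - s ^ 2) * x = x - s ^ 2 * x := by ring
  rw [e14] at hfin hGe
  have hs2x : 0 ≤ s ^ 2 * x := by positivity
  have e15 : q * (2 * ∫ t, Real.sqrt (l + ‖pv K h (zet t)‖) ∂nu)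
      = 2 * (q * ∫ t, Real.sqrt (l + ‖pv K h (zet t)‖) ∂nu) := by ring
  rw [e15] at hfin
  linarith

end

end Pool.Agent.W767.HD
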