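import Pool.Agent.W767.HD.Sc2

/-!
# The functional `Nn`
-/

set_option autoImplicit false

namespace Pool.Agent.W767.HD

noncomputable section

open MeasureTheory Metric Filter Topology Complex
open scoped ComplexConjugate
open Pool.Agent.Helper873.OneVar

variable {Ω : Type*} [TopologicalSpace Ω] [CompactSpace Ω] [MeasurableSpace Ω] [BorelSpace Ω]
  (P : Measure Ω) [IsProbabilityMeasure P]

lemma cint {f : Ω → ℝ} (hf : Continuous f) : Integrable f P :=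
  hf.integrable_of_hasCompactSupport (HasCompactSupport.of_compactSpace f)

/-- Admissible levels. -/
def Nset (G : Ω → ℝ) : Set ℝ := {l | 0 ≤ l ∧ Real.sqrt (2 * l) ≤ ∫ ω, Real.sqrt (l + G ω) ∂P}

/-- The quasi-norm. -/
def Nn (G : Ω → ℝ) : ℝ := sSup (Nset P G)

variable {P}

lemma sq_int_le {f : Ω → ℝ} (hf : Continuous f) : (∫ ω, f ω ∂P) ^ 2 ≤ ∫ ω, f ω ^ 2 ∂P := by
  set m := ∫ ω, f ω ∂P with hm
  have h1 : 0 ≤ ∫ ω, (f ω - m) ^ 2 ∂P := integral_nonneg fun _ => sq_nonneg _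
  have h2 : ∫ ω, (f ω - m) ^ 2 ∂P = ∫ ω, f ω ^ 2 ∂P - m ^ 2 := by
    have e1 : ∀ ω, (f ω - m) ^ 2 = (f ω ^ 2 - 2 * m * f ω) + m ^ 2 := fun ω => by ring
    have i1 : Integrable (fun ω => f ω ^ 2) P := cint P (hf.pow 2)
    have i2 : Integrable (fun ω => 2 * m * f ω) P := cint P (continuous_const.mul hf)
    have i3 : Integrable (fun ω => f ω ^ 2 - 2 * m * f ω) P := i1.sub i2
    simp only [e1]
    rw [integral_add i3 (integrable_const _), integral_sub i1 i2, integral_const_mul]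
    simp only [integral_const, probReal_univ, one_smul]
    rw [← hm]
    ring
  linarith

lemma Nset_le {G : Ω → ℝ} (hG : Continuous G) (hG0 : ∀ ω, 0 ≤ G ω) {l : ℝ} (hl : l ∈ Nset P G) :
    l ≤ ∫ ω, G ω ∂P := by
  obtain ⟨h0, h1⟩ := hl
  have hc : Continuous fun ω => Real.sqrt (l + G ω) :=
    Real.continuous_sqrt.comp (continuous_const.add hG)
  have h2 := sq_int_le (P := P) hc
  have h3 : ∫ ω, Real.sqrt (l + G ω) ^ 2 ∂P = l + ∫ ω, G ω ∂P := by
    have : ∀ ω, Real.sqrt (l + G ω) ^ 2 = l + G ω := fun ω =>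
      Real.sq_sqrt (by have := hG0 ω; positivity)
    simp only [this]
    rw [integral_add (integrable_const _) (cint P hG)]
    simp
  rw [h3] at h2
  have h4 : (Real.sqrt (2 * l)) ^ 2 ≤ (∫ ω, Real.sqrt (l + G ω) ∂P) ^ 2 :=
    pow_le_pow_left₀ (Real.sqrt_nonneg _) h1 2
  rw [Real.sq_sqrt (by positivity)] at h4
  linarith

lemma zero_mem {G : Ω → ℝ} : (0 : ℝ) ∈ Nset P G := by
  refine ⟨le_rfl, ?_⟩
  rw [mul_zero, Real.sqrt_zero]
  exact integral_nonneg fun _ => Real.sqrt_nonneg _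

lemma Nset_bdd {G : Ω → ℝ} (hG : Continuous G) (hG0 : ∀ ω, 0 ≤ G ω) : BddAbove (Nset P G) :=
  ⟨_, fun _ hl => Nset_le hG hG0 hl⟩

lemma le_Nn {G : Ω → ℝ} (hG : Continuous G) (hG0 : ∀ ω, 0 ≤ G ω) {l : ℝ} (hl : l ∈ Nset P G) :
    l ≤ Nn P G := le_csSup (Nset_bdd hG hG0) hl

lemma Nn_nonneg {G : Ω → ℝ} (hG : Continuous G) (hG0 : ∀ ω, 0 ≤ G ω) : 0 ≤ Nn P G :=
  le_Nn hG hG0 zero_mem

lemma Nn_le {G : Ω → ℝ} (hG : Continuous G) (hG0 : ∀ ω, 0 ≤ G ω) : Nn P G ≤ ∫ ω, G ω ∂P :=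
  csSup_le ⟨0, zero_mem⟩ fun _ hl => Nset_le hG hG0 hl

lemma Nn_mem {G : Ω → ℝ} (hG : Continuous G) (hG0 : ∀ ω, 0 ≤ G ω) :
    Real.sqrt (2 * Nn P G) ≤ ∫ ω, Real.sqrt (Nn P G + G ω) ∂P := by
  set N := Nn P G with hN
  set R := ∫ ω, Real.sqrt (N + G ω) ∂P with hR
  have h1 : ∀ u : ℕ, Real.sqrt (2 * (N - 1 / (u + 1))) ≤ R := by
    intro u
    have hu : (0 : ℝ) < 1 / (u + 1) := by positivity
    obtain ⟨l, hl, hlt⟩ := exists_lt_of_lt_csSup ⟨0, zero_mem⟩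
      (show N - 1 / ((u : ℝ) + 1) < sSup (Nset P G) by
        change N - 1 / ((u : ℝ) + 1) < N
        linarith)
    have hlN : l ≤ N := le_Nn hG hG0 hl
    refine (Real.sqrt_le_sqrt (by linarith)).trans (hl.2.trans ?_)
    refine integral_mono (cint P (Real.continuous_sqrt.comp (continuous_const.add hG)))
      (cint P (Real.continuous_sqrt.comp (continuous_const.add hG))) fun ω => ?_
    exact Real.sqrt_le_sqrt (by linarith)
  have h2 : Tendsto (fun u : ℕ => Real.sqrt (2 * (N - 1 / ((u : ℝ) + 1)))) atTop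
      (𝓝 (Real.sqrt (2 * (N - 0)))) := by
    refine (Real.continuous_sqrt.tendsto _).comp ?_
    exact (tendsto_const_nhds.sub tendsto_one_div_add_atTop_nhds_zero_nat).const_mul 2
  rw [sub_zero] at h2
  exact le_of_tendsto' h2 h1

/-- elementary inequality -/
lemma sqrt_tau {l x τ : ℝ} (hl : 0 < l) (hx : 0 ≤ x) (h0 : 0 ≤ τ) (h1 : τ < 1) :
    Real.sqrt (l + x) + τ * (x / (2 * Real.sqrt (l + x))) ≤ Real.sqrt (l + x / (1 - τ)) := by
  have hp : 0 < Real.sqrt (l + x) := Real.sqrt_pos.mpr (by positivity)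
  have hq : Real.sqrt (l + x) ^ 2 = l + x := Real.sq_sqrt (by positivity)
  refine Real.le_sqrt_of_sq_le ?_
  have h2 : (Real.sqrt (l + x) + τ * (x / (2 * Real.sqrt (l + x)))) ^ 2
      = Real.sqrt (l + x) ^ 2 + τ * x + τ ^ 2 * (x ^ 2 / (4 * Real.sqrt (l + x) ^ 2)) := by
    field_simp
    ring
  rw [h2, hq]
  have h3 : x ^ 2 / (4 * (l + x)) ≤ x / 4 := by
    rw [div_le_div_iff₀ (by positivity) (by norm_num)]
    nlinarith
  have h4 : x + τ * x + τ ^ 2 * x ≤ x / (1 - τ) := by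
    rw [le_div_iff₀ (by linarith)]
    have : 0 ≤ τ ^ 3 * x := by positivity
    nlinarith
  have h5 : τ ^ 2 * (x ^ 2 / (4 * (l + x))) ≤ τ ^ 2 * (x / 4) :=
    mul_le_mul_of_nonneg_left h3 (sq_nonneg _)
  have h6 : 0 ≤ τ ^ 2 * x := by positivity
  linarith

/-- bounds for the derivative weight -/
lemma d_bounds {l x : ℝ} (hl : 0 < l) (hx : 0 ≤ x) :
    x / (2 * Real.sqrt (l + x)) ≤ Real.sqrt (l + x) - Real.sqrt l ∧
    Real.sqrt (l + x) - Real.sqrt l ≤ 2 * (x / (2 * Real.sqrt (l + x))) := by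
  have hp : 0 < Real.sqrt (l + x) := Real.sqrt_pos.mpr (by positivity)
  have hq : Real.sqrt (l + x) ^ 2 = l + x := Real.sq_sqrt (by positivity)
  have hr : Real.sqrt l ^ 2 = l := Real.sq_sqrt hl.le
  have hr0 : 0 < Real.sqrt l := Real.sqrt_pos.mpr hl
  have hx2 : x = Real.sqrt (l + x) ^ 2 - Real.sqrt l ^ 2 := by rw [hq, hr]; ring
  set a := Real.sqrt (l + x) with ha
  set b := Real.sqrt l with hb
  have hab : b ≤ a := Real.sqrt_le_sqrt (by linarith)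
  constructor
  · rw [div_le_iff₀ (by positivity), hx2]
    nlinarith
  · rw [mul_div_assoc', le_div_iff₀ (by positivity), hx2]
    nlinarith

end

end Pool.Agent.W767.HD
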