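import Pool.Agent.W767.HD.St1

/-!
# The inductive step
-/

set_option autoImplicit false

namespace Pool.Agent.W767.HD

noncomputable section

open MeasureTheory Metric Filter Topology Complex
open scoped ComplexConjugate
open Pool.Agent.Helper873.OneVar

variable {Ω : Type*} [TopologicalSpace Ω] [CompactSpace Ω] [MeasurableSpace Ω] [BorelSpace Ω]
  [FirstCountableTopology Ω] [LocallyCompactSpace Ω]
  {P : Measure Ω} [IsProbabilityMeasure P]

omit [CompactSpace Ω] [MeasurableSpace Ω] [BorelSpace Ω] in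
lemma par_cont {F : Ω → UnitAddCircle → ℝ} (hF : Continuous (Function.uncurry F)) :
    Continuous fun ω => ∫ t, F ω t ∂nu := by
  have := continuous_parametric_integral_of_continuous (μ := nu) hF isCompact_univ
  simpa using this

omit [CompactSpace Ω] [MeasurableSpace Ω] [BorelSpace Ω] [FirstCountableTopology Ω]
  [LocallyCompactSpace Ω] in
lemma pv_cont2 {K : ℕ} {h : Ω → ℕ → ℂ} (hh : ∀ k, Continuous fun ω => h ω k) :
    Continuous fun p : Ω × UnitAddCircle => pv K (h p.1) (zet p.2) := by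
  unfold pv
  refine continuous_finsetSum _ fun k _ => ?_
  exact ((hh k).comp continuous_fst).mul ((continuous_zet.comp continuous_snd).pow k)

omit [CompactSpace Ω] [MeasurableSpace Ω] [BorelSpace Ω] in
lemma en_cont {K : ℕ} {h : Ω → ℕ → ℂ} (hh : ∀ k, Continuous fun ω => h ω k) :
    Continuous fun ω => en K (h ω) :=
  par_cont (F := fun ω t => ‖pv K (h ω) (zet t)‖) (pv_cont2 hh).norm

omit [CompactSpace Ω] [MeasurableSpace Ω] [BorelSpace Ω] in
lemma sg_cont (s : ℝ) {K : ℕ} {h : Ω → ℕ → ℂ} (hh : ∀ k, Continuous fun ω => h ω k) :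
    Continuous fun ω => sg s K (h ω) := by
  unfold sg
  exact (en_cont hh).sub (continuous_const.mul ((hh 0).norm.add
    (continuous_const.mul (hh 1).norm)))

lemma N0_lower {s : ℝ} (hs : 0 < s) (hs1 : s ≤ 1 / 400) {K : ℕ} (hK : 2 < K)
    {h : Ω → ℕ → ℂ} (hh : ∀ k, Continuous fun ω => h ω k) {l : ℝ} (hl : 0 ≤ l)
    (hmem : Real.sqrt (2 * l) ≤ ∫ ω, ∫ t, Real.sqrt (l + ‖pv K (h ω) (zet t)‖) ∂nu ∂P) :
    l * (1 - 99 / 100 * s ^ 2) - 5200 * ∫ ω, sg s K (h ω) ∂P ≤ Nn P fun ω => ‖h ω 0‖ := by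
  set S := ∫ ω, sg s K (h ω) ∂P with hS
  have hS0 : 0 ≤ S := integral_nonneg fun ω => sg_nonneg hs.le (by linarith) hK _
  have hxc : Continuous fun ω => ‖h ω 0‖ := (hh 0).norm
  have hN0 : 0 ≤ Nn P fun ω => ‖h ω 0‖ := Nn_nonneg hxc fun _ => norm_nonneg _
  have hs2 : s ^ 2 ≤ 1 / 160000 := by nlinarith
  have hs20 : 0 < s ^ 2 := by positivity
  by_cases hbig : l ≤ 5200 * S
  · have : 0 ≤ l * (99 / 100 * s ^ 2) := by positivity
    linarith
  push Not at hbig
  have hl0 : 0 < l := by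
    have : 0 ≤ 5200 * S := by positivity
    linarith
  set q := Real.sqrt l with hq
  have hq0 : 0 < q := Real.sqrt_pos.mpr hl0
  have hqq : q * q = l := Real.mul_self_sqrt hl
  set d : Ω → ℝ := fun ω => ‖h ω 0‖ / (2 * Real.sqrt (l + ‖h ω 0‖)) with hd
  have hrp : ∀ ω, 0 < Real.sqrt (l + ‖h ω 0‖) := fun ω => Real.sqrt_pos.mpr (by positivity)
  have hrc : Continuous fun ω => Real.sqrt (l + ‖h ω 0‖) :=
    Real.continuous_sqrt.comp (continuous_const.add hxc)
  have hdc : Continuous d := hxc.div (continuous_const.mul hrc) fun ω =>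
    (mul_pos two_pos (hrp ω)).ne'
  have hd0 : ∀ ω, 0 ≤ d ω := fun ω => by
    have := hrp ω
    simp only [hd]
    positivity
  set A := ∫ ω, Real.sqrt (l + ‖h ω 0‖) ∂P with hA
  set Δ := ∫ ω, d ω ∂P with hΔ
  have hΔ0 : 0 ≤ Δ := integral_nonneg hd0
  -- pointwise bound
  have hpt : ∀ ω, ∫ t, Real.sqrt (l + ‖pv K (h ω) (zet t)‖) ∂nu
      ≤ Real.sqrt (l + ‖h ω 0‖) + (s ^ 2 * (51 / 50 - 1 / 22)) * d ω + s ^ 2 / 440 * q
        + 52 / q * sg s K (h ω) := by
    intro ω
    have h1 := main_one hs hs1 hl0 hK (h ω)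
    set x := ‖h ω 0‖ with hx
    have hx0 : 0 ≤ x := norm_nonneg _
    set r := Real.sqrt (l + x) with hr
    have hr0 : 0 < r := hrp ω
    have hrr : r ^ 2 = l + x := Real.sq_sqrt (by positivity)
    have hrq : q ≤ r := Real.sqrt_le_sqrt (by linarith)
    have hG0 : 0 ≤ sg s K (h ω) := sg_nonneg hs.le (by linarith) hK _
    have hdx : d ω = x / (2 * r) := rfl
    have h2 : ∫ t, Real.sqrt (l + ‖pv K (h ω) (zet t)‖) ∂nu
        ≤ ((l + x) + s ^ 2 * (x / 2 - x ^ 2 / (4 * (l + x)) + x / 100)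
          + 52 * sg s K (h ω)) / r := by
      rw [le_div_iff₀ hr0]
      linarith
    have h3 : ((l + x) + s ^ 2 * (x / 2 - x ^ 2 / (4 * (l + x)) + x / 100)
          + 52 * sg s K (h ω)) / r
        = r + s ^ 2 * (51 / 50 * d ω - 1 / 2 * (d ω * (x / (l + x)))) + 52 * sg s K (h ω) / r := by
      rw [hdx, ← hrr]
      field_simp
      ring
    have h4 : 52 * sg s K (h ω) / r ≤ 52 / q * sg s K (h ω) := by
      rw [div_mul_eq_mul_div]
      exact div_le_div_of_nonneg_left (by positivity) hq0 hrq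
    have h5 : 1 / 11 * (d ω - q / 20) ≤ d ω * (x / (l + x)) := by
      by_cases hc : x ≤ l / 10
      · have h6 : d ω ≤ q / 20 := by
          rw [hdx, div_le_iff₀ (by positivity)]
          nlinarith
        have h7 : 0 ≤ d ω * (x / (l + x)) := mul_nonneg (hd0 ω) (by positivity)
        linarith
      · push Not at hc
        have h6 : 1 / 11 ≤ x / (l + x) := by
          rw [div_le_div_iff₀ (by norm_num) (by positivity)]
          linarith
        have h7 := mul_le_mul_of_nonneg_left h6 (hd0 ω)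
        linarith
    have h6 : s ^ 2 * (51 / 50 * d ω - 1 / 2 * (d ω * (x / (l + x))))
        ≤ s ^ 2 * (51 / 50 * d ω - 1 / 2 * (1 / 11 * (d ω - q / 20))) :=
      mul_le_mul_of_nonneg_left (by linarith) hs20.le
    rw [h3] at h2
    have h7 : s ^ 2 * (51 / 50 * d ω - 1 / 2 * (1 / 11 * (d ω - q / 20)))
        = (s ^ 2 * (51 / 50 - 1 / 22)) * d ω + s ^ 2 / 440 * q := by ring
    linarith
  -- integrate
  have hint : Real.sqrt (2 * l) ≤ A + (s ^ 2 * (51 / 50 - 1 / 22)) * Δ + s ^ 2 / 440 * q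
      + 52 / q * S := by
    refine hmem.trans ?_
    have i0 : Integrable (fun ω => ∫ t, Real.sqrt (l + ‖pv K (h ω) (zet t)‖) ∂nu) P :=
      cint P (par_cont (F := fun ω t => Real.sqrt (l + ‖pv K (h ω) (zet t)‖))
        (Real.continuous_sqrt.comp (continuous_const.add (pv_cont2 hh).norm)))
    have i1 : Integrable (fun ω => Real.sqrt (l + ‖h ω 0‖)) P := cint P hrc
    have i2 : Integrable (fun ω => (s ^ 2 * (51 / 50 - 1 / 22)) * d ω) P :=
      cint P (continuous_const.mul hdc)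
    have i3 : Integrable (fun ω => 52 / q * sg s K (h ω)) P :=
      cint P (continuous_const.mul (sg_cont s hh))
    have i4 : Integrable (fun ω => Real.sqrt (l + ‖h ω 0‖)
        + (s ^ 2 * (51 / 50 - 1 / 22)) * d ω) P := i1.add i2
    have i5 : Integrable (fun ω => Real.sqrt (l + ‖h ω 0‖)
        + (s ^ 2 * (51 / 50 - 1 / 22)) * d ω + s ^ 2 / 440 * q) P := i4.add (integrable_const _)
    have e1 : ∫ ω, (Real.sqrt (l + ‖h ω 0‖) + (s ^ 2 * (51 / 50 - 1 / 22)) * d ω
        + s ^ 2 / 440 * q + 52 / q * sg s K (h ω)) ∂P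
        = A + (s ^ 2 * (51 / 50 - 1 / 22)) * Δ + s ^ 2 / 440 * q + 52 / q * S := by
      rw [integral_add i5 i3, integral_add i4 (integrable_const _), integral_add i1 i2]
      simp only [integral_const_mul, integral_const, probReal_univ, one_smul]
      rfl
    rw [← e1]
    exact integral_mono i0 (i5.add i3) hpt
  have hA2 : A ≤ q + 2 * Δ := by
    have j1 : Integrable (fun ω => 2 * d ω) P := cint P (continuous_const.mul hdc)
    have e1 : ∫ ω, (q + 2 * d ω) ∂P = q + 2 * Δ := by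
      rw [integral_add (integrable_const _) j1, integral_const_mul]
      simp only [integral_const, probReal_univ, one_smul]
      rfl
    rw [← e1]
    refine integral_mono (cint P hrc) ((integrable_const _).add j1) fun ω => ?_
    have := (d_bounds hl0 (norm_nonneg (h ω 0))).2
    simp only [hd]
    linarith
  have hsq2 : Real.sqrt (2 * l) = Real.sqrt 2 * q := Real.sqrt_mul (by norm_num) _
  have hs2l : (1.414 : ℝ) ≤ Real.sqrt 2 := Real.le_sqrt_of_sq_le (by norm_num)
  have hSq : 52 / q * S ≤ q / 100 := by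
    rw [div_mul_eq_mul_div, div_le_iff₀ hq0]
    nlinarith
  have hΔq : q ≤ 5 * Δ := by
    rw [hsq2] at hint
    have h1 : 1.414 * q ≤ Real.sqrt 2 * q := mul_le_mul_of_nonneg_right hs2l hq0.le
    have h2 : s ^ 2 * (51 / 50 - 1 / 22) * Δ ≤ 1 / 160000 * Δ := by
      refine mul_le_mul_of_nonneg_right ?_ hΔ0
      linarith
    have h3 : s ^ 2 / 440 * q ≤ 1 / 160000 * q := by
      refine mul_le_mul_of_nonneg_right ?_ hq0.le
      linarith
    linarith
  have hSl : 52 / q * S ≤ 260 * S / l * Δ := by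
    rw [← hqq]
    have h1 : 52 / q * S = (52 * S / (q * q)) * q := by field_simp
    have h2 : 260 * S / (q * q) * Δ = (52 * S / (q * q)) * (5 * Δ) := by ring
    rw [h1, h2]
    exact mul_le_mul_of_nonneg_left hΔq (by positivity)
  set τ := 99 / 100 * s ^ 2 + 260 * S / l with hτ
  have hτ0 : 0 ≤ τ := by positivity
  have hτ1 : τ < 1 := by
    have : 260 * S / l ≤ 1 / 20 := by
      rw [div_le_iff₀ hl0]
      linarith
    linarith
  have hmain : Real.sqrt (2 * l) ≤ ∫ ω, Real.sqrt (l + ‖h ω 0‖ / (1 - τ)) ∂P := by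
    have h1 : Real.sqrt (2 * l) ≤ A + τ * Δ := by
      have h2 : s ^ 2 / 440 * q ≤ s ^ 2 / 440 * (5 * Δ) :=
        mul_le_mul_of_nonneg_left hΔq (by positivity)
      have h3 : 0 ≤ s ^ 2 * Δ := by positivity
      have h4 : τ * Δ = 99 / 100 * (s ^ 2 * Δ) + 260 * S / l * Δ := by
        rw [hτ]
        ring
      have h5 : s ^ 2 * (51 / 50 - 1 / 22) * Δ = (51 / 50 - 1 / 22) * (s ^ 2 * Δ) := by ring
      have h6 : s ^ 2 / 440 * (5 * Δ) = 1 / 88 * (s ^ 2 * Δ) := by ring
      linarith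
    refine h1.trans ?_
    have j1 : Integrable (fun ω => τ * d ω) P := cint P (continuous_const.mul hdc)
    have j2 : Integrable (fun ω => Real.sqrt (l + ‖h ω 0‖)) P := cint P hrc
    have e1 : ∫ ω, (Real.sqrt (l + ‖h ω 0‖) + τ * d ω) ∂P = A + τ * Δ := by
      rw [integral_add j2 j1, integral_const_mul]
    rw [← e1]
    refine integral_mono (j2.add j1) (cint P
      (Real.continuous_sqrt.comp (continuous_const.add (hxc.div_const _)))) fun ω => ?_
    exact sqrt_tau hl0 (norm_nonneg _) hτ0 hτ1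
  have hfin : l * (1 - τ) ∈ Nset P fun ω => ‖h ω 0‖ := by
    have h1τ : 0 < 1 - τ := by linarith
    refine ⟨by positivity, ?_⟩
    have e1 : Real.sqrt (2 * (l * (1 - τ))) = Real.sqrt (1 - τ) * Real.sqrt (2 * l) := by
      rw [← Real.sqrt_mul h1τ.le]
      congr 1
      ring
    have e2 : ∀ ω, Real.sqrt (l * (1 - τ) + ‖h ω 0‖)
        = Real.sqrt (1 - τ) * Real.sqrt (l + ‖h ω 0‖ / (1 - τ)) := by
      intro ω
      rw [← Real.sqrt_mul h1τ.le]
      congr 1
      field_simp
    simp only [e2]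
    rw [e1, integral_const_mul]
    exact mul_le_mul_of_nonneg_left hmain (Real.sqrt_nonneg _)
  have hle := le_Nn hxc (fun _ => norm_nonneg _) hfin
  have e9 : l * (1 - τ) = l * (1 - 99 / 100 * s ^ 2) - 260 * S := by
    rw [hτ]
    field_simp
    ring
  rw [e9] at hle
  linarith

end

end Pool.Agent.W767.HD
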