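import Pool.Agent.W767.HD.St2

/-!
# The inductive step, second part
-/

set_option autoImplicit false

namespace Pool.Agent.W767.HD

noncomputable section

open MeasureTheory Metric Filter Topology Complex
open scoped ComplexConjugate
open Pool.Agent.Helper873.OneVar

variable {Ω : Type*} [TopologicalSpace Ω] [CompactSpace Ω] [MeasurableSpace Ω] [BorelSpace Ω]
  [FirstCountableTopology Ω] [LocallyCompactSpace Ω]
  {P : Measure Ω} [IsProbabilityMeasure P]

/-- pointwise lower bound used for the first coefficient -/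
lemma pt_lower {s m : ℝ} (hs : 0 < s) (hs1 : s ≤ 1 / 400) (hm : 0 < m) {K : ℕ} (hK : 2 < K)
    (h : ℕ → ℂ) :
    Real.sqrt (m + 999 / 1000 * ‖h 0‖) - 500 / (s ^ 2 * Real.sqrt m) * sg s K h
      ≤ Real.sqrt (m + ‖h 1‖ / (2 * s)) := by
  set x := ‖h 0‖ with hx
  set g := ‖h 1‖ / (2 * s) with hg
  have hx0 : 0 ≤ x := norm_nonneg _
  have hg0 : 0 ≤ g := by positivity
  have hG0 : 0 ≤ sg s K h := sg_nonneg hs.le (by linarith) hK h
  have hm0 : 0 < Real.sqrt m := Real.sqrt_pos.mpr hm
  by_cases hc : 999 / 1000 * x ≤ g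
  · have h1 : Real.sqrt (m + 999 / 1000 * x) ≤ Real.sqrt (m + g) :=
      Real.sqrt_le_sqrt (by linarith)
    have h2 : 0 ≤ 500 / (s ^ 2 * Real.sqrt m) * sg s K h := by positivity
    linarith
  · push Not at hc
    have hxp : 0 < x := by
      rcases hx0.eq_or_lt with h0 | h0
      · rw [← h0] at hc
        linarith
      · exact h0
    have hy : ‖h 1‖ = 2 * s * g := by
      rw [hg]
      field_simp
    have h1 := sg_sq hs.le (by linarith) hK h (by
      rw [hy, ← hx]
      have : 0 ≤ 2 * s * (x - g) := mul_nonneg (by positivity) (by linarith)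
      linarith)
    rw [hy, ← hx] at h1
    have h2 : (x - g) ^ 2 ≤ x * sg s K h / s ^ 2 := by
      rw [le_div_iff₀ (by positivity)]
      linarith
    have h3 : x - g ≤ 1000 * sg s K h / s ^ 2 := by
      have h4 : x / 1000 * (x - g) ≤ (x - g) ^ 2 := by
        rw [sq]
        exact mul_le_mul_of_nonneg_right (by linarith) (by linarith)
      have h5 : x / 1000 * (x - g) ≤ x / 1000 * (1000 * sg s K h / s ^ 2) := by
        refine h4.trans (h2.trans (le_of_eq ?_))
        ring
      exact le_of_mul_le_mul_left h5 (by positivity)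
    set a := Real.sqrt (m + 999 / 1000 * x) with ha
    set b := Real.sqrt (m + g) with hb
    have ha2 : a ^ 2 = m + 999 / 1000 * x := Real.sq_sqrt (by positivity)
    have hb2 : b ^ 2 = m + g := Real.sq_sqrt (by positivity)
    have ham : Real.sqrt m ≤ a := Real.sqrt_le_sqrt (by linarith)
    have hbm : Real.sqrt m ≤ b := Real.sqrt_le_sqrt (by linarith)
    have hab : b ≤ a := Real.sqrt_le_sqrt (by linarith)
    have h6 : (a - b) * (2 * Real.sqrt m) ≤ 1000 * sg s K h / s ^ 2 := by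
      calc (a - b) * (2 * Real.sqrt m) ≤ (a - b) * (a + b) :=
            mul_le_mul_of_nonneg_left (by linarith) (by linarith)
        _ = a ^ 2 - b ^ 2 := by ring
        _ ≤ x - g := by
            rw [ha2, hb2]
            linarith
        _ ≤ _ := h3
    have h7 : a - b ≤ 500 / (s ^ 2 * Real.sqrt m) * sg s K h := by
      rw [← le_div_iff₀ (by positivity)] at h6
      refine h6.trans (le_of_eq ?_)
      field_simp
      ring
    linarith

lemma N1_lower {s : ℝ} (hs : 0 < s) (hs1 : s ≤ 1 / 400) {K : ℕ} (hK : 2 < K)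
    {h : Ω → ℕ → ℂ} (hh : ∀ k, Continuous fun ω => h ω k) :
    2 * s * (999 / 1000 * Nn P (fun ω => ‖h ω 0‖) - 20000 * (∫ ω, sg s K (h ω) ∂P) / s ^ 2)
      ≤ Nn P fun ω => ‖h ω 1‖ := by
  set S := ∫ ω, sg s K (h ω) ∂P with hS
  have hS0 : 0 ≤ S := integral_nonneg fun ω => sg_nonneg hs.le (by linarith) hK _
  have hxc : Continuous fun ω => ‖h ω 0‖ := (hh 0).norm
  have hyc : Continuous fun ω => ‖h ω 1‖ := (hh 1).norm
  have hN1 : 0 ≤ Nn P fun ω => ‖h ω 1‖ := Nn_nonneg hyc fun _ => norm_nonneg _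
  set N := Nn P (fun ω => ‖h ω 0‖) with hN
  have hN0 : 0 ≤ N := Nn_nonneg hxc fun _ => norm_nonneg _
  have hNm : Real.sqrt (2 * N) ≤ ∫ ω, Real.sqrt (N + ‖h ω 0‖) ∂P := Nn_mem hxc fun _ => norm_nonneg _
  by_cases htriv : 999 / 1000 * N ≤ 20000 * S / s ^ 2
  · have : 2 * s * (999 / 1000 * N - 20000 * S / s ^ 2) ≤ 0 :=
      mul_nonpos_of_nonneg_of_nonpos (by positivity) (by linarith)
    linarith
  push Not at htriv
  have hNp : 0 < N := by
    have : 0 ≤ 20000 * S / s ^ 2 := by positivity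
    linarith
  set τ := 10000 * S / s ^ 2 / N with hτ
  have hτ0 : 0 ≤ τ := by positivity
  have hτ1 : τ ≤ 1 / 2 := by
    rw [hτ, div_le_iff₀ hNp]
    have : 10000 * S / s ^ 2 = 20000 * S / s ^ 2 / 2 := by ring
    rw [this]
    linarith
  set m := 999 / 1000 * (1 - τ) * N with hm
  have hmp : 0 < m := by
    have : 0 < 1 - τ := by linarith
    positivity
  set rN := Real.sqrt N with hrN
  have hrN0 : 0 < rN := Real.sqrt_pos.mpr hNp
  -- lower bound for the integral of the derivative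
  have hrp : ∀ ω, 0 < Real.sqrt (N + ‖h ω 0‖) := fun ω => Real.sqrt_pos.mpr (by positivity)
  have hrc : Continuous fun ω => Real.sqrt (N + ‖h ω 0‖) :=
    Real.continuous_sqrt.comp (continuous_const.add hxc)
  set d : Ω → ℝ := fun ω => ‖h ω 0‖ / (2 * Real.sqrt (N + ‖h ω 0‖)) with hd
  have hdc : Continuous d := hxc.div (continuous_const.mul hrc) fun ω =>
    (mul_pos two_pos (hrp ω)).ne'
  have hs2l : (1.414 : ℝ) ≤ Real.sqrt 2 := Real.le_sqrt_of_sq_le (by norm_num)
  have hs2N : Real.sqrt (2 * N) = Real.sqrt 2 * rN := Real.sqrt_mul (by norm_num) _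
  have hΔ : 1 / 5 * rN ≤ ∫ ω, d ω ∂P := by
    have j1 : Integrable (fun ω => 2 * d ω) P := cint P (continuous_const.mul hdc)
    have e1 : ∫ ω, (rN + 2 * d ω) ∂P = rN + 2 * ∫ ω, d ω ∂P := by
      rw [integral_add (integrable_const _) j1, integral_const_mul]
      simp only [integral_const, probReal_univ, one_smul]
    have e2 : ∫ ω, Real.sqrt (N + ‖h ω 0‖) ∂P ≤ ∫ ω, (rN + 2 * d ω) ∂P := by
      refine integral_mono (cint P hrc) ((integrable_const _).add j1) fun ω => ?_
      have := (d_bounds hNp (norm_nonneg (h ω 0))).2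
      simp only [hd]
      linarith
    rw [e1] at e2
    have e3 : 1.414 * rN ≤ Real.sqrt 2 * rN := mul_le_mul_of_nonneg_right hs2l hrN0.le
    rw [hs2N] at hNm
    linarith
  have h1τ : 0 < 1 - τ := by linarith
  set ρ := Real.sqrt (999 / 1000 * (1 - τ)) with hρ
  have hρ0 : 0 < ρ := Real.sqrt_pos.mpr (by positivity)
  have hρm : ρ * rN = Real.sqrt m := by
    rw [hρ, hrN, ← Real.sqrt_mul (by positivity)]
  have hA : Real.sqrt (2 * m) + τ / 5 * Real.sqrt m
      ≤ ∫ ω, Real.sqrt (m + 999 / 1000 * ‖h ω 0‖) ∂P := by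
    have e1 : ∀ ω, Real.sqrt (m + 999 / 1000 * ‖h ω 0‖)
        = ρ * Real.sqrt (N + ‖h ω 0‖ / (1 - τ)) := by
      intro ω
      rw [hρ, ← Real.sqrt_mul (by positivity)]
      congr 1
      rw [hm]
      field_simp
    simp only [e1]
    rw [integral_const_mul]
    have j1 : Integrable (fun ω => τ * d ω) P := cint P (continuous_const.mul hdc)
    have j2 : Integrable (fun ω => Real.sqrt (N + ‖h ω 0‖)) P := cint P hrc
    have e2 : ∫ ω, (Real.sqrt (N + ‖h ω 0‖) + τ * d ω) ∂P
        = ∫ ω, Real.sqrt (N + ‖h ω 0‖) ∂P + τ * ∫ ω, d ω ∂P := by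
      rw [integral_add j2 j1, integral_const_mul]
    have e3 : ∫ ω, (Real.sqrt (N + ‖h ω 0‖) + τ * d ω) ∂P
        ≤ ∫ ω, Real.sqrt (N + ‖h ω 0‖ / (1 - τ)) ∂P := by
      refine integral_mono (j2.add j1) (cint P
        (Real.continuous_sqrt.comp (continuous_const.add (hxc.div_const _)))) fun ω => ?_
      exact sqrt_tau hNp (norm_nonneg _) hτ0 (by linarith)
    have e4 : Real.sqrt (2 * N) + τ * (1 / 5 * rN) ≤ ∫ ω, Real.sqrt (N + ‖h ω 0‖ / (1 - τ)) ∂P := by
      have := mul_le_mul_of_nonneg_left hΔ hτ0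
      linarith
    have e5 : Real.sqrt (2 * m) + τ / 5 * Real.sqrt m = ρ * (Real.sqrt (2 * N) + τ * (1 / 5 * rN)) := by
      have : Real.sqrt (2 * m) = ρ * Real.sqrt (2 * N) := by
        rw [hρ, ← Real.sqrt_mul (by positivity)]
        congr 1
        rw [hm]
        ring
      rw [this, ← hρm]
      ring
    rw [e5]
    exact mul_le_mul_of_nonneg_left e4 hρ0.le
  have hsm : 0 < Real.sqrt m := Real.sqrt_pos.mpr hmp
  have hB : Real.sqrt (2 * m) ≤ ∫ ω, Real.sqrt (m + ‖h ω 1‖ / (2 * s)) ∂P := by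
    have i1 : Integrable (fun ω => Real.sqrt (m + 999 / 1000 * ‖h ω 0‖)) P :=
      cint P (Real.continuous_sqrt.comp (continuous_const.add (continuous_const.mul hxc)))
    have i2 : Integrable (fun ω => 500 / (s ^ 2 * Real.sqrt m) * sg s K (h ω)) P :=
      cint P (continuous_const.mul (sg_cont s hh))
    have e1 : ∫ ω, (Real.sqrt (m + 999 / 1000 * ‖h ω 0‖)
        - 500 / (s ^ 2 * Real.sqrt m) * sg s K (h ω)) ∂P
        = ∫ ω, Real.sqrt (m + 999 / 1000 * ‖h ω 0‖) ∂P - 500 / (s ^ 2 * Real.sqrt m) * S := by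
      rw [integral_sub i1 i2, integral_const_mul]
    have e2 : ∫ ω, (Real.sqrt (m + 999 / 1000 * ‖h ω 0‖)
        - 500 / (s ^ 2 * Real.sqrt m) * sg s K (h ω)) ∂P
        ≤ ∫ ω, Real.sqrt (m + ‖h ω 1‖ / (2 * s)) ∂P := by
      refine integral_mono (i1.sub i2) (cint P
        (Real.continuous_sqrt.comp (continuous_const.add (hyc.div_const _)))) fun ω => ?_
      exact pt_lower hs hs1 hmp hK (h ω)
    have e3 : 500 / (s ^ 2 * Real.sqrt m) * S ≤ τ / 5 * Real.sqrt m := by
      have hmm : Real.sqrt m * Real.sqrt m = m := Real.mul_self_sqrt hmp.le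
      have e4 : 500 * (S / s ^ 2) ≤ τ / 5 * m := by
        have e5 : τ * N = 10000 * (S / s ^ 2) := by
          rw [hτ]
          field_simp
        have e6 : τ / 5 * m = 999 / 5000 * (1 - τ) * (τ * N) := by
          rw [hm]
          ring
        rw [e6, e5]
        have e7 : 0 ≤ S / s ^ 2 := by positivity
        nlinarith
      rw [← hmm] at e4
      have e8 : 500 / (s ^ 2 * Real.sqrt m) * S = 500 * (S / s ^ 2) / Real.sqrt m := by
        field_simp
      rw [e8, div_le_iff₀ hsm]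
      linarith
    linarith
  have hmem : 2 * s * m ∈ Nset P fun ω => ‖h ω 1‖ := by
    refine ⟨by positivity, ?_⟩
    have e1 : Real.sqrt (2 * (2 * s * m)) = Real.sqrt (2 * s) * Real.sqrt (2 * m) := by
      rw [← Real.sqrt_mul (by positivity)]
      congr 1
      ring
    have e2 : ∀ ω, Real.sqrt (2 * s * m + ‖h ω 1‖)
        = Real.sqrt (2 * s) * Real.sqrt (m + ‖h ω 1‖ / (2 * s)) := by
      intro ω
      rw [← Real.sqrt_mul (by positivity)]
      congr 1
      field_simp
    simp only [e2]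
    rw [e1, integral_const_mul]
    exact mul_le_mul_of_nonneg_left hB (Real.sqrt_nonneg _)
  have hle := le_Nn hyc (fun _ => norm_nonneg _) hmem
  refine le_trans ?_ hle
  refine mul_le_mul_of_nonneg_left ?_ (by positivity)
  have e5 : τ * N = 10000 * (S / s ^ 2) := by
    rw [hτ]
    field_simp
  have e6 : m = 999 / 1000 * N - 999 / 1000 * (τ * N) := by
    rw [hm]
    ring
  rw [e6, e5]
  have e7 : 0 ≤ S / s ^ 2 := by positivity
  have e8 : 20000 * S / s ^ 2 = 20000 * (S / s ^ 2) := by ring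
  rw [e8]
  linarith

end

end Pool.Agent.W767.HD
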