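import Pool.Agent.W767.HD.St3

/-!
# The inductive step, conclusion
-/

set_option autoImplicit false

namespace Pool.Agent.W767.HD

noncomputable section

open MeasureTheory Metric Filter Topology Complex
open scoped ComplexConjugate
open Pool.Agent.Helper873.OneVar

variable {Ω : Type*} [TopologicalSpace Ω] [CompactSpace Ω] [MeasurableSpace Ω] [BorelSpace Ω]
  [FirstCountableTopology Ω] [LocallyCompactSpace Ω]
  {P : Measure Ω} [IsProbabilityMeasure P]

lemma coeff_sum_pt {s : ℝ} (hs : 0 < s) (hs1 : s ≤ 1 / 400) {K : ℕ} (hK : 2 < K) (h : ℕ → ℂ) :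
    (1 - s ^ 2) * ∑ k ∈ Finset.range K, s ^ k * ‖h k‖
      ≤ (1 + 6 * s ^ 3) * en K h - 1 / 2 * sg s K h := by
  have h1 := sum_coeff hs.le (by linarith) hK h
  have h2 := en_sub_le hs.le (by linarith) hK h
  have h3 := le_en (show 0 < K by omega) h
  have hG0 : 0 ≤ sg s K h := sg_nonneg hs.le (by linarith) hK h
  have hx0 : 0 ≤ ‖h 0‖ := norm_nonneg _
  have hs2 : s ^ 2 ≤ 1 := pow_le_one₀ hs.le (by linarith)
  have hA0 : 0 ≤ 2 * s * ((en K h - ‖h 0‖) + s ^ 2 * ‖h 0‖) := by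
    have : 0 ≤ s ^ 2 * ‖h 0‖ := by positivity
    have h4 : 0 ≤ (en K h - ‖h 0‖) + s ^ 2 * ‖h 0‖ := by linarith
    positivity
  calc (1 - s ^ 2) * ∑ k ∈ Finset.range K, s ^ k * ‖h k‖
      ≤ (1 - s ^ 2) * (‖h 0‖ + s * ‖h 1‖ + 2 * s * ((en K h - ‖h 0‖) + s ^ 2 * ‖h 0‖)) :=
        mul_le_mul_of_nonneg_left h1 (by linarith)
    _ ≤ (1 - s ^ 2) * (‖h 0‖ + s * ‖h 1‖) + 2 * s * ((en K h - ‖h 0‖) + s ^ 2 * ‖h 0‖) := by
        rw [mul_add (1 - s ^ 2) (‖h 0‖ + s * ‖h 1‖)]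
        have : (1 - s ^ 2) * (2 * s * ((en K h - ‖h 0‖) + s ^ 2 * ‖h 0‖))
            ≤ 1 * (2 * s * ((en K h - ‖h 0‖) + s ^ 2 * ‖h 0‖)) :=
          mul_le_mul_of_nonneg_right (sub_le_self _ (sq_nonneg s)) hA0
        linarith
    _ = en K h - sg s K h + 2 * s * (en K h - ‖h 0‖) + 2 * s ^ 3 * ‖h 0‖ := by
        unfold sg
        ring
    _ ≤ en K h - sg s K h + 2 * s * (2 * s ^ 2 * ‖h 0‖ + 2 * sg s K h) + 2 * s ^ 3 * ‖h 0‖ := by
        have := mul_le_mul_of_nonneg_left h2 (show 0 ≤ 2 * s by positivity)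
        linarith
    _ = en K h - (1 - 4 * s) * sg s K h + 6 * s ^ 3 * ‖h 0‖ := by ring
    _ ≤ (1 + 6 * s ^ 3) * en K h - 1 / 2 * sg s K h := by
        have e1 : 6 * s ^ 3 * ‖h 0‖ ≤ 6 * s ^ 3 * en K h :=
          mul_le_mul_of_nonneg_left h3 (by positivity)
        have e2 : 1 / 2 * sg s K h ≤ (1 - 4 * s) * sg s K h :=
          mul_le_mul_of_nonneg_right (by linarith) hG0
        linarith

theorem step {s : ℝ} (hs : 0 < s) (hs1 : s ≤ 1 / 400) {K : ℕ} (hK : 2 < K)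
    {h : Ω → ℕ → ℂ} (hh : ∀ k, Continuous fun ω => h ω k) {C : ℝ} (hC : 20000000 ≤ C)
    {m T : ℕ → ℝ} (hm : ∀ k, k < K → m k ≤ Nn P fun ω => ‖h ω k‖)
    (hT : ∀ k, k < K → T k + 200 * Nn P (fun ω => ‖h ω k‖) ≤ C * ∫ ω, ‖h ω k‖ ∂P)
    {l : ℝ} (hl : 0 ≤ l)
    (hmem : Real.sqrt (2 * l) ≤ ∫ ω, ∫ t, Real.sqrt (l + ‖pv K (h ω) (zet t)‖) ∂nu ∂P) :
    ∑ k ∈ Finset.range K, s ^ k * (s ^ 2 * m k + (1 - s ^ 2) * T k) + 200 * l
      ≤ C * (1 + 6 * s ^ 3) * ∫ ω, en K (h ω) ∂P := by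
  set S := ∫ ω, sg s K (h ω) ∂P with hS
  have hS0 : 0 ≤ S := integral_nonneg fun ω => sg_nonneg hs.le (by linarith) hK _
  set N : ℕ → ℝ := fun k => Nn P fun ω => ‖h ω k‖ with hN
  have hN0 : ∀ k, 0 ≤ N k := fun k => Nn_nonneg (hh k).norm fun _ => norm_nonneg _
  set E := ∫ ω, en K (h ω) ∂P with hE
  have hE0 : 0 ≤ E := integral_nonneg fun ω => integral_nonneg fun _ => norm_nonneg _
  have h1 := N0_lower (P := P) hs hs1 hK hh hl hmem
  have h2 := N1_lower (P := P) hs hs1 hK hh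
  rw [← hS] at h1 h2
  have hs2 : s ^ 2 ≤ 1 / 160000 := by nlinarith
  have hs20 : 0 < s ^ 2 := by positivity
  set a := 200 * (1 - s ^ 2) - s ^ 2 with ha
  have ha0 : 0 ≤ a := by rw [ha]; linarith
  -- the sum
  have hsum : ∑ k ∈ Finset.range K, s ^ k * (s ^ 2 * m k + (1 - s ^ 2) * T k)
      ≤ C * ((1 - s ^ 2) * ∑ k ∈ Finset.range K, s ^ k * ∫ ω, ‖h ω k‖ ∂P)
        - ∑ k ∈ Finset.range K, s ^ k * (a * N k) := by
    rw [Finset.mul_sum, Finset.mul_sum, ← Finset.sum_sub_distrib]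
    refine Finset.sum_le_sum fun k hk => ?_
    rw [Finset.mem_range] at hk
    have e1 : s ^ 2 * m k ≤ s ^ 2 * N k := mul_le_mul_of_nonneg_left (hm k hk) hs20.le
    have e2 : (1 - s ^ 2) * T k ≤ (1 - s ^ 2) * (C * ∫ ω, ‖h ω k‖ ∂P - 200 * N k) := by
      refine mul_le_mul_of_nonneg_left ?_ (by linarith)
      have := hT k hk
      simp only [hN]
      linarith
    have e3 : s ^ k * (s ^ 2 * m k + (1 - s ^ 2) * T k)
        ≤ s ^ k * (s ^ 2 * N k + (1 - s ^ 2) * (C * ∫ ω, ‖h ω k‖ ∂P - 200 * N k)) :=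
      mul_le_mul_of_nonneg_left (by linarith) (by positivity)
    refine e3.trans (le_of_eq ?_)
    rw [ha]
    ring
  have hlow : a * (N 0 + s * N 1) ≤ ∑ k ∈ Finset.range K, s ^ k * (a * N k) := by
    obtain ⟨L, rfl⟩ : ∃ L, K = L + 2 := ⟨K - 2, by omega⟩
    rw [Finset.sum_range_succ', Finset.sum_range_succ']
    have : 0 ≤ ∑ k ∈ Finset.range L, s ^ (k + 1 + 1) * (a * N (k + 1 + 1)) :=
      Finset.sum_nonneg fun k _ => mul_nonneg (by positivity) (mul_nonneg ha0 (hN0 _))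
    simp only [zero_add, pow_one, pow_zero, one_mul]
    linarith
  have hint : (1 - s ^ 2) * ∑ k ∈ Finset.range K, s ^ k * ∫ ω, ‖h ω k‖ ∂P
      ≤ (1 + 6 * s ^ 3) * E - 1 / 2 * S := by
    have e1 : (1 - s ^ 2) * ∑ k ∈ Finset.range K, s ^ k * ∫ ω, ‖h ω k‖ ∂P
        = ∫ ω, (1 - s ^ 2) * ∑ k ∈ Finset.range K, s ^ k * ‖h ω k‖ ∂P := by
      rw [integral_const_mul, integral_finsetSum]
      · simp only [integral_const_mul]
      · intro k _
        exact cint P (continuous_const.mul (hh k).norm)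
    have j1 : Integrable (fun ω => (1 + 6 * s ^ 3) * en K (h ω)) P :=
      cint P (continuous_const.mul (en_cont hh))
    have j2 : Integrable (fun ω => 1 / 2 * sg s K (h ω)) P :=
      cint P (continuous_const.mul (sg_cont s hh))
    have e2 : ∫ ω, ((1 + 6 * s ^ 3) * en K (h ω) - 1 / 2 * sg s K (h ω)) ∂P
        = (1 + 6 * s ^ 3) * E - 1 / 2 * S := by
      rw [integral_sub j1 j2, integral_const_mul, integral_const_mul]
    rw [e1, ← e2]
    refine integral_mono (cint P (continuous_const.mul (continuous_finsetSum _ fun k _ =>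
      continuous_const.mul (hh k).norm))) (j1.sub j2) fun ω => ?_
    exact coeff_sum_pt hs hs1 hK (h ω)
  have hC0 : 0 ≤ C := by linarith
  have h3 := mul_le_mul_of_nonneg_left hint hC0
  -- lower bound for the main gain
  have h4 : 1998 / 1000 * s ^ 2 * N 0 - 40000 * S ≤ s * N 1 := by
    have e1 := mul_le_mul_of_nonneg_left h2 hs.le
    refine le_trans (le_of_eq ?_) e1
    simp only [hN]
    field_simp
    ring
  have h5 : (l * (1 - 99 / 100 * s ^ 2) - 5200 * S) * (1 + 1998 / 1000 * s ^ 2)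
      ≤ N 0 * (1 + 1998 / 1000 * s ^ 2) :=
    mul_le_mul_of_nonneg_right h1 (by positivity)
  have h6 : l * (1 + 1008 / 1000 * s ^ 2 - 198 / 100 * s ^ 4) - 45201 * S ≤ N 0 + s * N 1 := by
    have e1 : (l * (1 - 99 / 100 * s ^ 2) - 5200 * S) * (1 + 1998 / 1000 * s ^ 2)
        = l * (1 + 1008 / 1000 * s ^ 2 - 19780200 / 10000000 * s ^ 4) - 5200 * S
          - 5200 * 1998 / 1000 * (s ^ 2 * S) := by ring
    have e2 : s ^ 2 * S ≤ 1 / 160000 * S := mul_le_mul_of_nonneg_right hs2 hS0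
    have e3 : 0 ≤ l * s ^ 4 := by positivity
    linarith
  have h7 : 200 * l ≤ a * (l * (1 + 1008 / 1000 * s ^ 2 - 198 / 100 * s ^ 4)) := by
    have e1 : 200 ≤ a * (1 + 1008 / 1000 * s ^ 2 - 198 / 100 * s ^ 4) := by
      rw [ha]
      set u := s ^ 2 with hu
      have e2 : s ^ 4 = u ^ 2 := by rw [hu]; ring
      rw [e2]
      have e3 : (200 * (1 - u) - u) * (1 + 1008 / 1000 * u - 198 / 100 * u ^ 2)
          = 200 + u * (6 / 10 - u * (598608 / 1000) + u * u * (39798 / 100)) := by ring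
      rw [e3]
      have e4 : 0 ≤ u * u := by positivity
      have e5 : 0 ≤ 6 / 10 - u * (598608 / 1000) + u * u * (39798 / 100) := by linarith
      have e6 : 0 ≤ u * (6 / 10 - u * (598608 / 1000) + u * u * (39798 / 100)) :=
        mul_nonneg hs20.le e5
      linarith
    have := mul_le_mul_of_nonneg_left e1 hl
    linarith
  have h8 := mul_le_mul_of_nonneg_left h6 ha0
  have h9 : a * (45201 * S) ≤ 200 * (45201 * S) := by
    refine mul_le_mul_of_nonneg_right ?_ (by positivity)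
    rw [ha]
    linarith
  have h10 : 10000000 * S ≤ C * (1 / 2 * S) := by
    have := mul_le_mul_of_nonneg_right hC (show 0 ≤ 1 / 2 * S by positivity)
    linarith
  have e11 : C * ((1 + 6 * s ^ 3) * E - 1 / 2 * S) = C * (1 + 6 * s ^ 3) * E - C * (1 / 2 * S) := by
    ring
  rw [e11] at h3
  have e12 : a * (l * (1 + 1008 / 1000 * s ^ 2 - 198 / 100 * s ^ 4) - 45201 * S)
      = a * (l * (1 + 1008 / 1000 * s ^ 2 - 198 / 100 * s ^ 4)) - a * (45201 * S) := by ring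
  rw [e12] at h8
  linarith

/-- The crude step, used for the finitely many small primes. -/
theorem crude {s : ℝ} (hs : 0 < s) (hs1 : s < 1) {K : ℕ}
    {h : Ω → ℕ → ℂ} (hh : ∀ k, Continuous fun ω => h ω k) {C : ℝ} (hC : 1 ≤ C)
    {m T : ℕ → ℝ} (hm : ∀ k, k < K → m k ≤ ∫ ω, ‖h ω k‖ ∂P)
    (hT : ∀ k, k < K → T k ≤ C * ∫ ω, ‖h ω k‖ ∂P) :
    ∑ k ∈ Finset.range K, s ^ k * (s ^ 2 * m k + (1 - s ^ 2) * T k)
      ≤ C / (1 - s) * ∫ ω, en K (h ω) ∂P := by
  set E := ∫ ω, en K (h ω) ∂P with hE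
  have hE0 : 0 ≤ E := integral_nonneg fun ω => integral_nonneg fun _ => norm_nonneg _
  have hIk : ∀ k, k < K → ∫ ω, ‖h ω k‖ ∂P ≤ E := fun k hk =>
    integral_mono (cint P (hh k).norm) (cint P (en_cont hh)) fun ω => coeff_le (h ω) hk
  have hs2 : 0 ≤ 1 - s ^ 2 := by
    have : s ^ 2 ≤ 1 := pow_le_one₀ hs.le hs1.le
    linarith
  have h1 : ∑ k ∈ Finset.range K, s ^ k * (s ^ 2 * m k + (1 - s ^ 2) * T k)
      ≤ ∑ k ∈ Finset.range K, s ^ k * (C * E) := by
    refine Finset.sum_le_sum fun k hk => ?_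
    rw [Finset.mem_range] at hk
    refine mul_le_mul_of_nonneg_left ?_ (by positivity)
    have e1 := hIk k hk
    have e2 : m k ≤ C * E := (hm k hk).trans (e1.trans (le_mul_of_one_le_left hE0 hC))
    have e3 : T k ≤ C * E := (hT k hk).trans (mul_le_mul_of_nonneg_left e1 (by linarith))
    have e4 := mul_le_mul_of_nonneg_left e2 (sq_nonneg s)
    have e5 := mul_le_mul_of_nonneg_left e3 hs2
    linarith
  refine h1.trans ?_
  rw [← Finset.sum_mul]
  have h5 : ∑ k ∈ Finset.range K, s ^ k ≤ (1 - s)⁻¹ := by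
    rw [← tsum_geometric_of_lt_one hs.le hs1]
    exact (summable_geometric_of_lt_one hs.le hs1).sum_le_tsum _ fun _ _ => by positivity
  calc (∑ k ∈ Finset.range K, s ^ k) * (C * E) ≤ (1 - s)⁻¹ * (C * E) :=
        mul_le_mul_of_nonneg_right h5 (mul_nonneg (by linarith) hE0)
    _ = C / (1 - s) * E := by
        rw [div_eq_mul_inv]
        ring

end

end Pool.Agent.W767.HD
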